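import Pool.Agent.H13.SB.W.Std
import Pool.Agent.H13.SB.Class

/-!
# The piece `W` acts trivially on homology

Paper proof. `ex : F b →* Multiplicative (WG b → ℤ)` (exponent sums) kills `pp`, `zz` (products
of commutators; the target is commutative, so `ex (cj c w) = ex w`, `ex (cm x y) = 1`), hence
`ex (SA s w) = ex w` and `ex (SB s w) = ex w` on letters, so for all `w` (`hom_ext'`), so
`ex (rho γ w) = ex w` for all `γ` (`mem_of_gens`). Transport by `std`
(`piece_apply`, `std_of`).
-/

set_option linter.unusedSimpArgs false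

namespace H13SB.W

private theorem Triv_Lp {b : ℕ} (φ : F b →* Multiplicative ℤ) (f : Fin b → F b)
    (hf : ∀ i, φ (f i) = 1) (s : ℕ) : φ (Lp f s) = 1 := by
  rw [Lp, map_list_prod]
  apply List.prod_eq_one
  intro y hy
  rw [List.mem_map] at hy
  obtain ⟨w, hw, rfl⟩ := hy
  have hw' := List.mem_of_mem_take hw
  rw [List.mem_ofFn] at hw'
  obtain ⟨i, rfl⟩ := hw'
  exact hf i

private theorem Triv_cm {b : ℕ} (φ : F b →* Multiplicative ℤ) (x y : F b) :
    φ (cm x y) = 1 := by
  rw [map_cm, cm, mul_comm (φ x)]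
  group

private theorem Triv_letters {b : ℕ} (φ : F b →* Multiplicative ℤ) (s r : Fin b) (k : Knd) :
    φ (SAv s r k) = φ (FreeGroup.of (r, k)) ∧ φ (SBv s r k) = φ (FreeGroup.of (r, k)) := by
  obtain ⟨ψ, hψ⟩ : ∃ ψ : F b → ℤ, ∀ w, ψ w = (φ w).toAdd := ⟨_, fun _ => rfl⟩
  have hmul : ∀ x y, ψ (x * y) = ψ x + ψ y := fun x y => by rw [hψ, hψ, hψ, map_mul, toAdd_mul]
  have hinv : ∀ x, ψ x⁻¹ = -ψ x := fun x => by rw [hψ, hψ, map_inv, toAdd_inv]
  have hp : ψ pp = 0 := by
    have h : φ pp = 1 := Triv_Lp φ Kap (fun i => Triv_cm φ _ _) b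
    rw [hψ, h, toAdd_one]
  have hz : ψ zz = 0 := by
    have h : φ zz = 1 := Triv_Lp φ kap (fun i => Triv_cm φ _ _) b
    rw [hψ, h, toAdd_one]
  have ha : FreeGroup.of (r, Knd.a) = a r := rfl
  have he : FreeGroup.of (r, Knd.e) = e r := rfl
  have hA : FreeGroup.of (r, Knd.A) = A r := rfl
  have hB : FreeGroup.of (r, Knd.B) = B r := rfl
  have key : ψ (SAv s r k) = ψ (FreeGroup.of (r, k)) ∧ ψ (SBv s r k) = ψ (FreeGroup.of (r, k)) := by
    constructor
    · cases k <;> simp only [SAv, ha, he, hA, hB] <;> split_ifs <;>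
        simp only [cj, hmul, hinv, hp, hz, *] <;> ring
    · cases k <;> simp only [SBv, ha, he, hA, hB] <;> split_ifs <;>
        simp only [cj, hmul, hinv, hp, hz, *] <;> ring
  rw [hψ, hψ, hψ] at key
  exact ⟨Multiplicative.toAdd.injective key.1, Multiplicative.toAdd.injective key.2⟩

private theorem Triv_SA {b : ℕ} (φ : F b →* Multiplicative ℤ) (s : Fin b) (w : F b) :
    φ (SA s w) = φ w := by
  have h : φ.comp (SA s) = φ := by
    apply FreeGroup.ext_hom
    rintro ⟨r, k⟩
    rw [MonoidHom.comp_apply, SA, FreeGroup.lift_apply_of]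
    exact (Triv_letters φ s r k).1
  exact DFunLike.congr_fun h w

private theorem Triv_SB {b : ℕ} (φ : F b →* Multiplicative ℤ) (s : Fin b) (w : F b) :
    φ (SB s w) = φ w := by
  have h : φ.comp (SB s) = φ := by
    apply FreeGroup.ext_hom
    rintro ⟨r, k⟩
    rw [MonoidHom.comp_apply, SB, FreeGroup.lift_apply_of]
    exact (Triv_letters φ s r k).2
  exact DFunLike.congr_fun h w

private theorem Triv_rho {b : ℕ} (φ : F b →* Multiplicative ℤ) (γ : SurfaceGroup b) (w : F b) :
    φ (rho γ w) = φ w := by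
  let H : Subgroup (SurfaceGroup b) :=
    { carrier := {γ | ∀ w, φ (rho γ w) = φ w}
      mul_mem' := by
        intro x y hx hy w
        rw [map_mul, MulAut.mul_apply, hx, hy]
      one_mem' := by
        intro w
        rw [map_one, MulAut.one_apply]
      inv_mem' := by
        intro x hx w
        have h1 := hx (rho x⁻¹ w)
        rw [← MulAut.mul_apply, ← map_mul, mul_inv_cancel, map_one, MulAut.one_apply] at h1
        exact h1.symm }
  have h := mem_of_gens H (fun x => by
    rcases x with ⟨i, t⟩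
    cases t
    · intro w
      rw [rho_a]
      exact Triv_SA φ i w
    · intro w
      rw [rho_b]
      exact Triv_SB φ i w) γ
  exact h w

theorem fclass_piece (b : ℕ) (γ : SurfaceGroup b) (w : FreeGroup (Gen (b + b))) :
    fclass ((piece b).ρ γ w) = fclass w := by
  funext x
  simp only [fclass]
  congr 1
  rw [piece_apply]
  have h := Triv_rho ((fexp x).comp (std (b := b)).symm.toMonoidHom) γ (std w)
  simp only [MonoidHom.comp_apply] at h
  have h2 : (std (b := b)).symm.toMonoidHom (std w) = w := (std (b := b)).symm_apply_apply w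
  rw [h2] at h
  exact h

end H13SB.W
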