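import Pool.Agent.H13.SB.W.Std

/-!
# The curve cutting off the second copy, and the values of the second fibering
-/

namespace H13SB.W

open SemidirectProduct

variable {b : ℕ}

theorem hW_A (r : Fin b) : hW (A r) = ga r := by
  rw [hW, MonoidHom.comp_apply, tau0_A, tauv]
  split_ifs <;> simp

theorem hW_a (r : Fin b) : hW (a r) = 1 := by
  simp [hW, tau0_a]

theorem hW_e (r : Fin b) : hW (e r) = 1 := by
  simp [hW, tau0_e]

theorem hP_L0 (j : Fin b) :
    hP b (FreeGroup.of (Fin.castAdd b j, false)) = sgen (j.rev, true) := by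
  have h := hP_of (b := b) j.rev
  rwa [Fin.rev_rev] at h

theorem hP_L1 (j : Fin b) :
    hP b (FreeGroup.of (Fin.castAdd b j, true)) = sgen (j.rev, false) := by
  change hW (std (FreeGroup.of _)) = _
  rw [std_of]
  have : letterEquiv (b := b) (Fin.castAdd b j, true) = (j.rev, Knd.A) := by
    simp [letterEquiv]
  rw [this]
  exact hW_A _

theorem hP_R (j : Fin b) (t : Bool) : hP b (FreeGroup.of (Fin.natAdd b j, t)) = 1 := by
  change hW (std (FreeGroup.of _)) = _
  rw [std_of]
  cases t
  · have : letterEquiv (b := b) (Fin.natAdd b j, false) = (j, Knd.a) := by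
      simp only [letterEquiv, Equiv.coe_fn_mk, Fin.addCases_right, Bool.false_eq_true, if_false]
    rw [this]
    exact hW_a _
  · have : letterEquiv (b := b) (Fin.natAdd b j, true) = (j, Knd.e) := by
      simp only [letterEquiv, Equiv.coe_fn_mk, Fin.addCases_right, if_true]
    rw [this]
    exact hW_e _

theorem hW_pp : hW (pp : F b) = 1 := by
  simp [hW, tau0_pp]

theorem hW_rho (γ : SurfaceGroup b) (w : F b) : hW (rho γ w) = γ * hW w * γ⁻¹ := by
  have h := DFunLike.congr_fun (tau_equiv γ) w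
  change tau0 (rho γ w) = inr γ * tau0 w * (inr γ)⁻¹ at h
  change (tau0 (rho γ w)).right = γ * (tau0 w).right * γ⁻¹
  rw [h]
  rfl

/-- The monodromy preserves the conjugacy class of `pp`. -/
theorem conj_pp (γ : SurfaceGroup b) : ∃ k : F b, rho γ pp = k * pp * k⁻¹ ∧ hW k = 1 := by
  let H : Subgroup (SurfaceGroup b) :=
    { carrier := {γ | ∃ k : F b, rho γ pp = k * pp * k⁻¹ ∧ hW k = 1}
      mul_mem' := by
        rintro x y ⟨k, hk, hk'⟩ ⟨l, hl, hl'⟩
        refine ⟨rho x l * k, ?_, ?_⟩
        · rw [map_mul, MulAut.mul_apply, hl, map_mul, map_mul, hk, map_inv]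
          group
        · rw [map_mul, hW_rho, hk', hl']
          group
      one_mem' := ⟨1, by simp, by simp⟩
      inv_mem' := by
        rintro x ⟨k, hk, hk'⟩
        refine ⟨(rho x⁻¹ k)⁻¹, ?_, ?_⟩
        · have h2 : rho x⁻¹ (rho x pp) = (pp : F b) := by
            rw [← MulAut.mul_apply, ← map_mul, inv_mul_cancel, map_one, MulAut.one_apply]
          rw [hk, map_mul (rho x⁻¹), map_mul (rho x⁻¹), map_inv (rho x⁻¹)] at h2
          have h3 : rho x⁻¹ pp = (rho x⁻¹ k)⁻¹ * (rho x⁻¹ k * rho x⁻¹ pp * (rho x⁻¹ k)⁻¹) *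
              rho x⁻¹ k := by group
          rw [h2] at h3
          rw [h3, inv_inv]
        · rw [map_inv, hW_rho, hk']
          group }
  exact mem_of_gens H (fun x => by
    change ∃ k : F b, rho (sgen x) pp = k * pp * k⁻¹ ∧ hW k = 1
    rcases x with ⟨i, t⟩
    cases t
    · rw [rho_a, SAm_apply]
      by_cases h0 : i.val = 0
      · exact ⟨1, by rw [SA_pp0 h0]; group, map_one _⟩
      · exact ⟨(a i)⁻¹, by rw [SA_pp h0]; rfl, by rw [map_inv, hW_a, inv_one]⟩
    · rw [rho_b, SBm_apply, SB_pp]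
      exact ⟨_, rfl, by simp only [map_mul, map_inv, hW_e, hW_pp]; group⟩) γ

theorem std_inL : std (inL (surfRel b)) = (pp⁻¹ : F b) := by
  change (std (b := b)).toMonoidHom (inL (surfRel b)) = pp⁻¹
  have := map_surfRel (b := b) ((std (b := b)).toMonoidHom.comp inL)
  rw [MonoidHom.comp_apply] at this
  rw [this, pp, Lp_all, List.prod_inv_reverse, List.map_ofFn, reverse_ofFn]
  congr 2
  funext i
  simp only [MonoidHom.comp_apply, inL, FreeGroup.map.of, Function.comp]
  change cm (std (FreeGroup.of _)) (std (FreeGroup.of _)) = _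
  rw [std_of, std_of]
  simp only [genL, letterEquiv, Equiv.coe_fn_mk, Fin.addCases_left, if_true]
  change cm (B i.rev) (A i.rev) = (cm (A i.rev) (B i.rev))⁻¹
  simp only [cm]; group

/-- The monodromy preserves the conjugacy class of the curve around the first `b` handles. -/
theorem conj_curve (γ : SurfaceGroup b) : ∃ k : FreeGroup (Gen (b + b)),
    (piece b).ρ γ (inL (surfRel b)) = k * inL (surfRel b) * k⁻¹ ∧ hP b k = 1 := by
  obtain ⟨k, hk, hk'⟩ := conj_pp γ
  have hs : (inL (surfRel b) : FreeGroup (Gen (b + b))) = std.symm (pp⁻¹ : F b) := by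
    rw [← std_inL]
    exact (std.symm_apply_apply _).symm
  refine ⟨std.symm k, ?_, ?_⟩
  · rw [piece_apply, std_inL, map_inv, hk, hs]
    change std.symm (k * pp * k⁻¹)⁻¹ = std.symm k * std.symm pp⁻¹ * (std.symm k)⁻¹
    rw [← map_inv std.symm k, ← map_mul, ← map_mul]
    congr 1
    group
  · change hW (std (std.symm k)) = 1
    rw [MulEquiv.apply_symm_apply, hk']

end H13SB.W
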