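import Pool.Agent.H13.SB.W.Rel2
import Pool.Agent.H13.SB.Piece

set_option linter.unusedSimpArgs false
set_option linter.unusedTactic false

namespace H13SB.W

variable {b : ℕ}

/-- The automorphism `SA s`. -/
def SAm (s : Fin b) : MulAut (F b) := MonoidHom.toMulEquiv (SA s) (SAi s) (SAi_SA s) (SA_SAi s)
/-- The automorphism `SB s`. -/
def SBm (s : Fin b) : MulAut (F b) := MonoidHom.toMulEquiv (SB s) (SBi s) (SBi_SB s) (SB_SBi s)

@[simp] theorem SAm_apply (s : Fin b) (w : F b) : SAm s w = SA s w := rfl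
@[simp] theorem SBm_apply (s : Fin b) (w : F b) : SBm s w = SB s w := rfl
@[simp] theorem SAm_inv_apply (s : Fin b) (w : F b) : (SAm s)⁻¹ w = SAi s w := rfl
@[simp] theorem SBm_inv_apply (s : Fin b) (w : F b) : (SBm s)⁻¹ w = SBi s w := rfl

theorem cm_apply_of_spec (s : Fin b) (C : F b →* F b)
    (h : (SA s).comp (SB s) = C.comp ((SB s).comp (SA s))) (w : F b) :
    cm (SAm s) (SBm s) w = C w := by
  have h1 : ∀ x, SA s (SB s x) = C (SB s (SA s x)) := fun x => DFunLike.congr_fun h x
  have h2 : ∀ x, SA s (SAi s x) = x := fun x => DFunLike.congr_fun (SA_SAi s) x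
  have h3 : ∀ x, SB s (SBi s x) = x := fun x => DFunLike.congr_fun (SB_SBi s) x
  change SAm s (SBm s ((SAm s)⁻¹ ((SBm s)⁻¹ w))) = C w
  rw [SBm_inv_apply, SAm_inv_apply, SBm_apply, SAm_apply, h1, h2, h3]

theorem Lp_cm_apply : ∀ n : ℕ, n < b → ∀ w : F b,
    Lp (fun i : Fin b => cm (SAm i) (SBm i)) (n + 1) w = T (n + 1) w := by
  intro n
  induction n with
  | zero =>
    intro hn w
    have h1 := Lp_succ (fun i : Fin b => cm (SAm i) (SBm i)) ⟨0, hn⟩
    simp only at h1
    rw [h1, Lp_zero, one_mul]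
    exact cm_apply_of_spec _ _ (T_one ⟨0, hn⟩ rfl) w
  | succ n ih =>
    intro hn w
    have h1 := Lp_succ (fun i : Fin b => cm (SAm i) (SBm i)) ⟨n + 1, hn⟩
    simp only at h1
    rw [h1, MulAut.mul_apply, ih (by omega), cm_apply_of_spec _ _ (Cc_spec ⟨n + 1, hn⟩ (by simp))]
    exact DFunLike.congr_fun (T_succ ⟨n + 1, hn⟩) w

theorem Lp_all {G : Type*} [Monoid G] (f : Fin b → G) : Lp f b = (List.ofFn f).prod := by
  rw [Lp, List.take_of_length_le (by simp)]

theorem rel_eq_one : (List.ofFn fun i : Fin b => cm (SAm i) (SBm i)).prod = 1 := by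
  rw [← Lp_all]
  rcases Nat.eq_zero_or_pos b with h | h
  · subst h
    exact Lp_zero _
  · apply MulEquiv.ext
    intro w
    have h1 := Lp_cm_apply (b := b) (b - 1) (by omega) w
    rw [Nat.sub_add_cancel h, T_last] at h1
    exact h1

theorem rho_aux : ∀ r ∈ ({surfRel b} : Set (FreeGroup (Gen b))),
    FreeGroup.lift (fun x : Gen b => if x.2 then SBm x.1 else SAm x.1) r = 1 := by
  intro r hr
  rw [Set.mem_singleton_iff] at hr
  subst hr
  rw [surfRel, map_list_prod, List.map_ofFn]
  rw [← rel_eq_one]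
  congr 2

/-- The action of the surface group of genus `b` on `F b`. -/
def rho : SurfaceGroup b →* MulAut (F b) := PresentedGroup.toGroup rho_aux

@[simp] theorem rho_a (i : Fin b) : rho (sgen (i, false)) = SAm i := by
  rw [rho, sgen, PresentedGroup.toGroup.of]; simp

@[simp] theorem rho_b (i : Fin b) : rho (sgen (i, true)) = SBm i := by
  rw [rho, sgen, PresentedGroup.toGroup.of]; simp

/-- The boundary word. -/
def bd : F b := pp⁻¹ * zz

theorem SA_bd (s : Fin b) : SA s bd = bd := by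
  by_cases h0 : s.val = 0
  · rw [bd, map_mul, map_inv, SA_pp0 h0, SA_zz0 h0]
  · rw [bd, map_mul, map_inv, SA_pp h0, SA_zz h0]; group

theorem SB_bd (s : Fin b) : SB s bd = bd := by
  rw [bd, map_mul, map_inv, SB_pp, SB_zz]; group

theorem mem_of_gens {b : ℕ} (H : Subgroup (SurfaceGroup b)) (h : ∀ x, sgen x ∈ H) :
    ∀ y, y ∈ H := by
  have h1 : Subgroup.closure (Set.range (PresentedGroup.of (rels := {surfRel b}))) ≤ H := by
    rw [Subgroup.closure_le]
    rintro _ ⟨x, rfl⟩
    exact h x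
  rw [PresentedGroup.closure_range_of] at h1
  exact fun y => h1 (Subgroup.mem_top y)

theorem rho_bd (γ : SurfaceGroup b) : rho γ bd = bd := by
  have h := mem_of_gens ((MulAction.stabilizer (MulAut (F b)) (bd : F b)).comap rho) (fun x => by
    rw [Subgroup.mem_comap, MulAction.mem_stabilizer_iff]
    rcases x with ⟨i, t⟩
    cases t
    · rw [rho_a]; exact SA_bd i
    · rw [rho_b]; exact SB_bd i) γ
  rw [Subgroup.mem_comap, MulAction.mem_stabilizer_iff] at h
  exact h

end H13SB.W
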