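import Pool.Agent.H13.SB.W.Defs

set_option linter.unusedSimpArgs false
set_option linter.unusedTactic false

namespace H13SB.W

variable {b : ℕ}

theorem Lp_zero {G : Type*} [Monoid G] (f : Fin b → G) : Lp f 0 = 1 := by simp [Lp]

theorem Lp_succ {G : Type*} [Monoid G] (f : Fin b → G) (s : Fin b) :
    Lp f (s.val + 1) = Lp f s.val * f s := by
  rw [Lp, Lp, List.take_add_one, List.prod_append]
  congr 1
  simp

theorem cj_mul {G : Type*} [Group G] (c x y : G) : cj c (x * y) = cj c x * cj c y := by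
  simp only [cj]; group

theorem cj_inv {G : Type*} [Group G] (c x : G) : cj c x⁻¹ = (cj c x)⁻¹ := by
  simp only [cj]; group

theorem cj_one {G : Type*} [Group G] (c : G) : cj c 1 = 1 := by
  simp [cj]

theorem map_cj {G H : Type*} [Group G] [Group H] (f : G →* H) (c x : G) :
    f (cj c x) = cj (f c) (f x) := by
  simp [cj]

theorem cj_cm {G : Type*} [Group G] (c x y : G) : cj c (cm x y) = cm (cj c x) (cj c y) := by
  simp only [cj, cm]; group

theorem map_Lp_left {G H : Type*} [Group G] [Group H] (f : G →* H) (K : Fin b → G)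
    (K' : Fin b → H) (c : H) (s : ℕ) (h : ∀ r : Fin b, r.val < s → f (K r) = cj c (K' r)) :
    ∀ j ≤ s, j ≤ b → f (Lp K j) = cj c (Lp K' j) := by
  intro j
  induction j with
  | zero => intro _ _; rw [Lp_zero, Lp_zero, map_one, cj_one]
  | succ j ih =>
    intro h1 h2
    have e1 := Lp_succ K ⟨j, h2⟩
    have e2 := Lp_succ K' ⟨j, h2⟩
    simp only at e1 e2
    rw [e1, e2, map_mul, cj_mul, ih (by omega) (by omega), h ⟨j, h2⟩ (by simpa using h1)]

theorem map_Lp_right {G H : Type*} [Group G] [Group H] (f : G →* H) (K : Fin b → G)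
    (K' : Fin b → H) (c : H) (s : ℕ) (h : ∀ r : Fin b, s ≤ r.val → f (K r) = cj c (K' r)) :
    ∀ j, s ≤ j → j ≤ b → f ((Lp K s)⁻¹ * Lp K j) = cj c ((Lp K' s)⁻¹ * Lp K' j) := by
  intro j h0
  induction j, h0 using Nat.le_induction with
  | base => intro _; rw [inv_mul_cancel, inv_mul_cancel, map_one, cj_one]
  | succ j hj ih =>
    intro h2
    have e1 := Lp_succ K ⟨j, h2⟩
    have e2 := Lp_succ K' ⟨j, h2⟩
    simp only at e1 e2
    rw [e1, e2, ← mul_assoc, ← mul_assoc, map_mul, cj_mul, ih (by omega),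
      h ⟨j, h2⟩ (by simpa using hj)]

/-- Splitting a product of conjugates at `s`. -/
theorem map_Lp_split {G H : Type*} [Group G] [Group H] (f : G →* H) (K : Fin b → G)
    (K' : Fin b → H) (s : Fin b) (cl cr : H)
    (hl : ∀ r : Fin b, r < s → f (K r) = cj cl (K' r))
    (hr : ∀ r : Fin b, s < r → f (K r) = cj cr (K' r)) :
    f (Lp K b) = cj cl (Lp K' s.val) * f (K s) *
      cj cr ((Lp K' (s.val + 1))⁻¹ * Lp K' b) := by
  have h1 := map_Lp_left f K K' cl s.val (fun r h => hl r h) s.val le_rfl s.isLt.le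
  have h2 := map_Lp_right f K K' cr (s.val + 1) (fun r h => hr r h) b (by omega) le_rfl
  have h3 : Lp K b = Lp K s.val * K s * ((Lp K (s.val + 1))⁻¹ * Lp K b) := by
    rw [Lp_succ]; group
  rw [← h1, ← h2, ← map_mul, ← map_mul, ← h3]

section values

variable (s r : Fin b)

theorem SA_a : SA s (a r) = SAv s r Knd.a := by simp [SA, a]
theorem SA_e : SA s (e r) = SAv s r Knd.e := by simp [SA, e]
theorem SA_A : SA s (A r) = SAv s r Knd.A := by simp [SA, A]
theorem SA_B : SA s (B r) = SAv s r Knd.B := by simp [SA, B]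
theorem SAi_a : SAi s (a r) = SAiv s r Knd.a := by simp [SAi, a]
theorem SAi_e : SAi s (e r) = SAiv s r Knd.e := by simp [SAi, e]
theorem SAi_A : SAi s (A r) = SAiv s r Knd.A := by simp [SAi, A]
theorem SAi_B : SAi s (B r) = SAiv s r Knd.B := by simp [SAi, B]
theorem SB_a : SB s (a r) = SBv s r Knd.a := by simp [SB, a]
theorem SB_e : SB s (e r) = SBv s r Knd.e := by simp [SB, e]
theorem SB_A : SB s (A r) = SBv s r Knd.A := by simp [SB, A]
theorem SB_B : SB s (B r) = SBv s r Knd.B := by simp [SB, B]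
theorem SBi_a : SBi s (a r) = SBiv s r Knd.a := by simp [SBi, a]
theorem SBi_e : SBi s (e r) = SBiv s r Knd.e := by simp [SBi, e]
theorem SBi_A : SBi s (A r) = SBiv s r Knd.A := by simp [SBi, A]
theorem SBi_B : SBi s (B r) = SBiv s r Knd.B := by simp [SBi, B]

end values

theorem zz_split (s : Fin b) : (zz : F b) = Lp kap s.val * kap s * Rz (s.val + 1) := by
  rw [Rz, zz, Lp_succ]; group

theorem pp_split (s : Fin b) : (pp : F b) = Lp Kap s.val * Kap s * Rp (s.val + 1) := by
  rw [Rp, pp, Lp_succ]; group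

theorem SA_pp {s : Fin b} (h0 : s.val ≠ 0) : SA s pp = cj (a s)⁻¹ pp := by
  have h := map_Lp_split (SA s) Kap Kap s ((a s)⁻¹ * pp * A s * pp⁻¹) ((a s)⁻¹ * A s)
    (fun r hr => by
      rw [Kap, map_cm, SA_A, SA_B, cj_cm]
      simp only [SAv, h0, hr, if_true, if_false])
    (fun r hr => by
      rw [Kap, map_cm, SA_A, SA_B, cj_cm]
      simp only [SAv, h0, hr.not_gt, hr.ne', if_false])
  rw [pp, h]
  change cj _ (Lp Kap s.val) * _ * cj _ (Rp (s.val + 1)) = cj (a s)⁻¹ pp
  have h2 : Rp (s.val + 1) = (Kap s)⁻¹ * (Lp Kap s.val)⁻¹ * (pp : F b) := by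
    rw [pp_split s]; group
  rw [h2, Kap, map_cm, SA_A, SA_B]
  simp only [SAv, h0, lt_irrefl, if_true, if_false, cj, cm]
  group

end H13SB.W
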