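import Pool.Agent.H13.SB.Defs

/-!
# The piece `W`: definitions

`F b` is the free group on `a_i, e_i, A_i, B_i`, `i < b`.
`pp = ∏ [A_i, B_i]`, `zz = ∏ [a_i, e_i]`.
`SA s`, `SB s` are the automorphisms by which the generators `a_s`, `b_s` of the surface group
of genus `b` act; `SAi s`, `SBi s` are their inverses.
-/

set_option linter.unusedSimpArgs false
set_option linter.unusedTactic false

namespace H13SB.W

/-- Kinds of letters. -/
inductive Knd | a | e | A | B
  deriving DecidableEq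

/-- Letters. -/
abbrev WG (b : ℕ) : Type := Fin b × Knd

/-- The free group of rank `4b`. -/
abbrev F (b : ℕ) : Type := FreeGroup (WG b)

variable {b : ℕ}

def a (i : Fin b) : F b := FreeGroup.of (i, Knd.a)
def e (i : Fin b) : F b := FreeGroup.of (i, Knd.e)
def A (i : Fin b) : F b := FreeGroup.of (i, Knd.A)
def B (i : Fin b) : F b := FreeGroup.of (i, Knd.B)

/-- Conjugation `c w c⁻¹`. -/
def cj {G : Type*} [Group G] (c w : G) : G := c * w * c⁻¹

/-- `∏_{i < s} f i`, in increasing order. -/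
def Lp {G : Type*} [Monoid G] (f : Fin b → G) (s : ℕ) : G := ((List.ofFn f).take s).prod

def kap (i : Fin b) : F b := cm (a i) (e i)
def Kap (i : Fin b) : F b := cm (A i) (B i)

/-- `pp = ∏ [A_i, B_i]`. -/
def pp : F b := Lp Kap b

/-- `zz = ∏ [a_i, e_i]`. -/
def zz : F b := Lp kap b

/-- Value of the automorphism `SA s` on the letter `(r, k)`. -/
def SAv (s r : Fin b) : Knd → F b
  | Knd.a => if s.val = 0 then (if r = s then a s else cj (zz⁻¹ * a s) (a r))
      else if r < s then cj ((a s)⁻¹ * pp * a s * pp⁻¹) (a r)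
      else if r = s then (a s)⁻¹ * pp * a s * pp⁻¹ * a s else a r
  | Knd.e => if s.val = 0 then
        (if r = s then zz⁻¹ * a s * e s * (a s)⁻¹ else cj (zz⁻¹ * a s) (e r))
      else if r < s then cj ((a s)⁻¹ * pp * a s * pp⁻¹) (e r)
      else if r = s then e s * (a s)⁻¹ * pp⁻¹ * a s else e r
  | Knd.A => if s.val = 0 then (if r = s then A s else cj (pp⁻¹ * A s) (A r))
      else if r < s then cj ((a s)⁻¹ * pp * A s * pp⁻¹) (A r)
      else if r = s then cj ((a s)⁻¹ * pp) (A s) else cj ((a s)⁻¹ * A s) (A r)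
  | Knd.B => if s.val = 0 then
        (if r = s then pp⁻¹ * A s * B s * (A s)⁻¹ else cj (pp⁻¹ * A s) (B r))
      else if r < s then cj ((a s)⁻¹ * pp * A s * pp⁻¹) (B r)
      else if r = s then (a s)⁻¹ * A s * B s * (A s)⁻¹ * pp⁻¹ * a s
      else cj ((a s)⁻¹ * A s) (B r)

/-- Value of the inverse of `SA s` on the letter `(r, k)`. -/
def SAiv (s r : Fin b) : Knd → F b
  | Knd.a => if s.val = 0 then (if r = s then a s else cj ((a s)⁻¹ * zz) (a r))
      else if r < s then cj (pp⁻¹ * a s * pp * (a s)⁻¹) (a r)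
      else if r = s then pp⁻¹ * a s * pp else a r
  | Knd.e => if s.val = 0 then
        (if r = s then (a s)⁻¹ * zz * e s * a s else cj ((a s)⁻¹ * zz) (e r))
      else if r < s then cj (pp⁻¹ * a s * pp * (a s)⁻¹) (e r)
      else if r = s then e s * pp else e r
  | Knd.A => if s.val = 0 then (if r = s then A s else cj ((A s)⁻¹ * pp) (A r))
      else if r < s then cj (pp⁻¹ * a s * pp * (A s)⁻¹) (A r)
      else if r = s then cj (pp⁻¹ * a s) (A s) else cj (pp⁻¹ * a s * (A s)⁻¹ * pp) (A r)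
  | Knd.B => if s.val = 0 then
        (if r = s then (A s)⁻¹ * pp * B s * A s else cj ((A s)⁻¹ * pp) (B r))
      else if r < s then cj (pp⁻¹ * a s * pp * (A s)⁻¹) (B r)
      else if r = s then pp⁻¹ * a s * (A s)⁻¹ * pp * B s * A s * (a s)⁻¹ * pp
      else cj (pp⁻¹ * a s * (A s)⁻¹ * pp) (B r)

/-- Value of the automorphism `SB s` on the letter `(r, k)`. -/
def SBv (s r : Fin b) : Knd → F b
  | Knd.a => if r < s then cj (pp⁻¹ * (e s)⁻¹ * pp * e s) (a r)
      else if r = s then pp⁻¹ * (e s)⁻¹ * pp * e s * a s * pp else a r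
  | Knd.e => if r < s then cj (pp⁻¹ * (e s)⁻¹ * pp * e s) (e r)
      else if r = s then pp⁻¹ * e s * pp else e r
  | Knd.A => if r < s then cj (pp⁻¹ * (e s)⁻¹ * pp * B s) (A r)
      else if r = s then pp⁻¹ * (e s)⁻¹ * pp * B s * A s * (B s)⁻¹ * e s * pp
      else cj (pp⁻¹ * (e s)⁻¹ * B s * pp) (A r)
  | Knd.B => if r < s then cj (pp⁻¹ * (e s)⁻¹ * pp * B s) (B r)
      else if r = s then cj (pp⁻¹ * (e s)⁻¹) (B s)
      else cj (pp⁻¹ * (e s)⁻¹ * B s * pp) (B r)

/-- Value of the inverse of `SB s` on the letter `(r, k)`. -/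
def SBiv (s r : Fin b) : Knd → F b
  | Knd.a => if r < s then cj (e s * pp * (e s)⁻¹ * pp⁻¹) (a r)
      else if r = s then e s * pp * (e s)⁻¹ * pp⁻¹ * a s * e s * pp⁻¹ * (e s)⁻¹ else a r
  | Knd.e => if r < s then cj (e s * pp * (e s)⁻¹ * pp⁻¹) (e r)
      else if r = s then cj (e s * pp) (e s) else e r
  | Knd.A => if r < s then cj (e s * pp * (B s)⁻¹ * pp⁻¹) (A r)
      else if r = s then e s * pp * (B s)⁻¹ * pp⁻¹ * A s * B s * pp⁻¹ * (e s)⁻¹
      else cj (e s * (B s)⁻¹) (A r)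
  | Knd.B => if r < s then cj (e s * pp * (B s)⁻¹ * pp⁻¹) (B r)
      else if r = s then cj (e s * pp) (B s)
      else cj (e s * (B s)⁻¹) (B r)

def SA (s : Fin b) : F b →* F b := FreeGroup.lift fun x => SAv s x.1 x.2
def SAi (s : Fin b) : F b →* F b := FreeGroup.lift fun x => SAiv s x.1 x.2
def SB (s : Fin b) : F b →* F b := FreeGroup.lift fun x => SBv s x.1 x.2
def SBi (s : Fin b) : F b →* F b := FreeGroup.lift fun x => SBiv s x.1 x.2

/-- Value of `Cc s = [SA s, SB s]` (for `s > 0`) on the letter `(r, k)`. -/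
def Cv (s r : Fin b) : Knd → F b
  | Knd.a => if r < s then cj ((kap s)⁻¹ * pp * kap s * pp⁻¹) (a r)
      else if r = s then cj ((kap s)⁻¹ * pp * kap s) (a r) else a r
  | Knd.e => if r < s then cj ((kap s)⁻¹ * pp * kap s * pp⁻¹) (e r)
      else if r = s then cj ((kap s)⁻¹ * pp * kap s) (e r) else e r
  | Knd.A => if r < s then cj ((kap s)⁻¹ * pp * Kap s * pp⁻¹) (A r)
      else if r = s then cj ((kap s)⁻¹ * pp * Kap s) (A r) else cj ((kap s)⁻¹ * Kap s) (A r)
  | Knd.B => if r < s then cj ((kap s)⁻¹ * pp * Kap s * pp⁻¹) (B r)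
      else if r = s then cj ((kap s)⁻¹ * pp * Kap s) (B r) else cj ((kap s)⁻¹ * Kap s) (B r)

/-- `∏_{i ≥ s} [a_i, e_i]`. -/
def Rz (s : ℕ) : F b := (Lp kap s)⁻¹ * zz

/-- `∏_{i ≥ s} [A_i, B_i]`. -/
def Rp (s : ℕ) : F b := (Lp Kap s)⁻¹ * pp

/-- Value of `T s = ∏_{i < s} [SA i, SB i]` (for `s > 0`) on the letter `(r, k)`. -/
def Tv (s : ℕ) (r : Fin b) : Knd → F b
  | Knd.a => if r.val < s then cj (pp⁻¹ * Rz s * pp * (Rz s)⁻¹) (a r) else cj pp⁻¹ (a r)
  | Knd.e => if r.val < s then cj (pp⁻¹ * Rz s * pp * (Rz s)⁻¹) (e r) else cj pp⁻¹ (e r)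
  | Knd.A => if r.val < s then cj (pp⁻¹ * Rz s * Lp Kap s) (A r)
      else cj (pp⁻¹ * Rz s * (Rp s)⁻¹) (A r)
  | Knd.B => if r.val < s then cj (pp⁻¹ * Rz s * Lp Kap s) (B r)
      else cj (pp⁻¹ * Rz s * (Rp s)⁻¹) (B r)

def Cc (s : Fin b) : F b →* F b := FreeGroup.lift fun x => Cv s x.1 x.2
def T (s : ℕ) : F b →* F b := FreeGroup.lift fun x => Tv s x.1 x.2

end H13SB.W
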