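import Pool.Agent.H13.SB.W.Basic

set_option linter.unusedSimpArgs false
set_option linter.unusedTactic false

namespace H13SB.W

variable {b : ℕ}

theorem SA_pp0 {s : Fin b} (h0 : s.val = 0) : SA s pp = (pp : F b) := by
  have h := map_Lp_split (SA s) Kap Kap s 1 (pp⁻¹ * A s)
    (fun r hr => absurd hr (by rw [Fin.lt_def, h0]; omega))
    (fun r hr => by
      rw [Kap, map_cm, SA_A, SA_B, cj_cm]
      simp only [SAv, h0, hr.ne', if_true, if_false])
  rw [pp, h]
  change cj _ (Lp Kap s.val) * _ * cj _ (Rp (s.val + 1)) = pp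
  have h2 : Rp (s.val + 1) = (Kap s)⁻¹ * (Lp Kap s.val)⁻¹ * (pp : F b) := by
    rw [pp_split s]; group
  rw [h2, Kap, map_cm, SA_A, SA_B]
  simp only [SAv, h0, if_true, Lp_zero, cj, cm]
  group

theorem SA_zz0 {s : Fin b} (h0 : s.val = 0) : SA s zz = (zz : F b) := by
  have h := map_Lp_split (SA s) kap kap s 1 (zz⁻¹ * a s)
    (fun r hr => absurd hr (by rw [Fin.lt_def, h0]; omega))
    (fun r hr => by
      rw [kap, map_cm, SA_a, SA_e, cj_cm]
      simp only [SAv, h0, hr.ne', if_true, if_false])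
  rw [zz, h]
  change cj _ (Lp kap s.val) * _ * cj _ (Rz (s.val + 1)) = zz
  have h2 : Rz (s.val + 1) = (kap s)⁻¹ * (Lp kap s.val)⁻¹ * (zz : F b) := by
    rw [zz_split s]; group
  rw [h2, kap, map_cm, SA_a, SA_e]
  simp only [SAv, h0, if_true, Lp_zero, cj, cm]
  group

theorem SA_zz {s : Fin b} (h0 : s.val ≠ 0) : SA s zz = cj (a s)⁻¹ pp * pp⁻¹ * zz := by
  have h := map_Lp_split (SA s) kap kap s ((a s)⁻¹ * pp * a s * pp⁻¹) 1
    (fun r hr => by
      rw [kap, map_cm, SA_a, SA_e, cj_cm]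
      simp only [SAv, h0, hr, if_true, if_false])
    (fun r hr => by
      rw [kap, map_cm, SA_a, SA_e, cj_cm]
      simp only [SAv, h0, hr.not_gt, hr.ne', if_false, cj]
      group)
  rw [zz, h]
  change cj _ (Lp kap s.val) * _ * cj _ (Rz (s.val + 1)) = _ * zz
  have h2 : Rz (s.val + 1) = (kap s)⁻¹ * (Lp kap s.val)⁻¹ * (zz : F b) := by
    rw [zz_split s]; group
  rw [h2, kap, map_cm, SA_a, SA_e]
  simp only [SAv, h0, lt_irrefl, if_true, if_false, cj, cm]
  group

theorem SB_pp (s : Fin b) : SB s pp = cj (e s * pp)⁻¹ pp := by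
  have h := map_Lp_split (SB s) Kap Kap s (pp⁻¹ * (e s)⁻¹ * pp * B s)
    (pp⁻¹ * (e s)⁻¹ * B s * pp)
    (fun r hr => by
      rw [Kap, map_cm, SB_A, SB_B, cj_cm]
      simp only [SBv, hr, if_true])
    (fun r hr => by
      rw [Kap, map_cm, SB_A, SB_B, cj_cm]
      simp only [SBv, hr.not_gt, hr.ne', if_false])
  rw [pp, h]
  change cj _ (Lp Kap s.val) * _ * cj _ (Rp (s.val + 1)) = cj (e s * pp)⁻¹ pp
  have h2 : Rp (s.val + 1) = (Kap s)⁻¹ * (Lp Kap s.val)⁻¹ * (pp : F b) := by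
    rw [pp_split s]; group
  rw [h2, Kap, map_cm, SB_A, SB_B]
  simp only [SBv, lt_irrefl, if_true, if_false, cj, cm]
  group

theorem SB_zz (s : Fin b) : SB s zz = cj (e s * pp)⁻¹ pp * pp⁻¹ * zz := by
  have h := map_Lp_split (SB s) kap kap s (pp⁻¹ * (e s)⁻¹ * pp * e s) 1
    (fun r hr => by
      rw [kap, map_cm, SB_a, SB_e, cj_cm]
      simp only [SBv, hr, if_true])
    (fun r hr => by
      rw [kap, map_cm, SB_a, SB_e, cj_cm]
      simp only [SBv, hr.not_gt, hr.ne', if_false, cj]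
      group)
  rw [zz, h]
  change cj _ (Lp kap s.val) * _ * cj _ (Rz (s.val + 1)) = _ * zz
  have h2 : Rz (s.val + 1) = (kap s)⁻¹ * (Lp kap s.val)⁻¹ * (zz : F b) := by
    rw [zz_split s]; group
  rw [h2, kap, map_cm, SB_a, SB_e]
  simp only [SBv, lt_irrefl, if_true, if_false, cj, cm]
  group

theorem SAi_pp0 {s : Fin b} (h0 : s.val = 0) : SAi s pp = (pp : F b) := by
  have h := map_Lp_split (SAi s) Kap Kap s 1 ((A s)⁻¹ * pp)
    (fun r hr => absurd hr (by rw [Fin.lt_def, h0]; omega))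
    (fun r hr => by
      rw [Kap, map_cm, SAi_A, SAi_B, cj_cm]
      simp only [SAiv, h0, hr.ne', if_true, if_false])
  rw [pp, h]
  change cj _ (Lp Kap s.val) * _ * cj _ (Rp (s.val + 1)) = pp
  have h2 : Rp (s.val + 1) = (Kap s)⁻¹ * (Lp Kap s.val)⁻¹ * (pp : F b) := by
    rw [pp_split s]; group
  rw [h2, Kap, map_cm, SAi_A, SAi_B]
  simp only [SAiv, h0, if_true, Lp_zero, cj, cm]
  group

theorem SAi_zz0 {s : Fin b} (h0 : s.val = 0) : SAi s zz = (zz : F b) := by
  have h := map_Lp_split (SAi s) kap kap s 1 ((a s)⁻¹ * zz)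
    (fun r hr => absurd hr (by rw [Fin.lt_def, h0]; omega))
    (fun r hr => by
      rw [kap, map_cm, SAi_a, SAi_e, cj_cm]
      simp only [SAiv, h0, hr.ne', if_true, if_false])
  rw [zz, h]
  change cj _ (Lp kap s.val) * _ * cj _ (Rz (s.val + 1)) = zz
  have h2 : Rz (s.val + 1) = (kap s)⁻¹ * (Lp kap s.val)⁻¹ * (zz : F b) := by
    rw [zz_split s]; group
  rw [h2, kap, map_cm, SAi_a, SAi_e]
  simp only [SAiv, h0, if_true, Lp_zero, cj, cm]
  group

theorem SAi_pp {s : Fin b} (h0 : s.val ≠ 0) : SAi s pp = cj (pp⁻¹ * a s) pp := by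
  have h := map_Lp_split (SAi s) Kap Kap s (pp⁻¹ * a s * pp * (A s)⁻¹)
    (pp⁻¹ * a s * (A s)⁻¹ * pp)
    (fun r hr => by
      rw [Kap, map_cm, SAi_A, SAi_B, cj_cm]
      simp only [SAiv, h0, hr, if_true, if_false])
    (fun r hr => by
      rw [Kap, map_cm, SAi_A, SAi_B, cj_cm]
      simp only [SAiv, h0, hr.not_gt, hr.ne', if_false])
  rw [pp, h]
  change cj _ (Lp Kap s.val) * _ * cj _ (Rp (s.val + 1)) = cj (pp⁻¹ * a s) pp
  have h2 : Rp (s.val + 1) = (Kap s)⁻¹ * (Lp Kap s.val)⁻¹ * (pp : F b) := by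
    rw [pp_split s]; group
  rw [h2, Kap, map_cm, SAi_A, SAi_B]
  simp only [SAiv, h0, lt_irrefl, if_true, if_false, cj, cm]
  group

theorem SBi_pp (s : Fin b) : SBi s pp = cj (e s) pp := by
  have h := map_Lp_split (SBi s) Kap Kap s (e s * pp * (B s)⁻¹ * pp⁻¹)
    (e s * (B s)⁻¹)
    (fun r hr => by
      rw [Kap, map_cm, SBi_A, SBi_B, cj_cm]
      simp only [SBiv, hr, if_true])
    (fun r hr => by
      rw [Kap, map_cm, SBi_A, SBi_B, cj_cm]
      simp only [SBiv, hr.not_gt, hr.ne', if_false])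
  rw [pp, h]
  change cj _ (Lp Kap s.val) * _ * cj _ (Rp (s.val + 1)) = cj (e s) pp
  have h2 : Rp (s.val + 1) = (Kap s)⁻¹ * (Lp Kap s.val)⁻¹ * (pp : F b) := by
    rw [pp_split s]; group
  rw [h2, Kap, map_cm, SBi_A, SBi_B]
  simp only [SBiv, lt_irrefl, if_true, if_false, cj, cm]
  group

/-- Two homomorphisms agreeing on the letters are equal. -/
theorem hom_ext' {H : Type*} [Group H] {f g : F b →* H}
    (ha : ∀ r, f (a r) = g (a r)) (he : ∀ r, f (e r) = g (e r))
    (hA : ∀ r, f (A r) = g (A r)) (hB : ∀ r, f (B r) = g (B r)) : f = g := by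
  apply FreeGroup.ext_hom
  rintro ⟨r, k⟩
  cases k
  · exact ha r
  · exact he r
  · exact hA r
  · exact hB r

theorem SA_SAi (s : Fin b) : (SA s).comp (SAi s) = MonoidHom.id _ := by
  by_cases h0 : s.val = 0
  · apply hom_ext' <;> intro r <;> by_cases h : r = s <;>
    simp only [MonoidHom.comp_apply, MonoidHom.id_apply, SAi_a, SAi_e, SAi_A, SAi_B, SAiv, h0,
      h, if_true, if_false, map_cj, map_mul, map_inv, SA_a, SA_e, SA_A, SA_B, SAv,
      SA_pp0 h0, SA_zz0 h0] <;> (try simp only [cj]) <;> group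
  · apply hom_ext' <;> intro r <;> rcases lt_trichotomy r s with h | rfl | h <;>
    (first
    | simp only [MonoidHom.comp_apply, MonoidHom.id_apply, SAi_a, SAi_e, SAi_A, SAi_B, SAiv, h0, 
        h, h.not_gt, h.ne', lt_irrefl, if_true, if_false, map_cj, map_mul, map_inv, SA_a, SA_e, SA_A, SA_B, SAv, SA_pp h0]
    | simp only [MonoidHom.comp_apply, MonoidHom.id_apply, SAi_a, SAi_e, SAi_A, SAi_B, SAiv, h0, 
        lt_irrefl, if_true, if_false, map_cj, map_mul, map_inv, SA_a, SA_e, SA_A, SA_B, SAv, SA_pp h0])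
    <;> (try simp only [cj]) <;> group

theorem SAi_SA (s : Fin b) : (SAi s).comp (SA s) = MonoidHom.id _ := by
  by_cases h0 : s.val = 0
  · apply hom_ext' <;> intro r <;> by_cases h : r = s <;>
    simp only [MonoidHom.comp_apply, MonoidHom.id_apply, SA_a, SA_e, SA_A, SA_B, SAv, h0,
      h, if_true, if_false, map_cj, map_mul, map_inv, SAi_a, SAi_e, SAi_A, SAi_B, SAiv,
      SAi_pp0 h0, SAi_zz0 h0] <;> (try simp only [cj]) <;> group
  · apply hom_ext' <;> intro r <;> rcases lt_trichotomy r s with h | rfl | h <;>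
    (first
    | simp only [MonoidHom.comp_apply, MonoidHom.id_apply, SA_a, SA_e, SA_A, SA_B, SAv, h0, 
        h, h.not_gt, h.ne', lt_irrefl, if_true, if_false, map_cj, map_mul, map_inv, SAi_a, SAi_e, SAi_A, SAi_B, SAiv, SAi_pp h0]
    | simp only [MonoidHom.comp_apply, MonoidHom.id_apply, SA_a, SA_e, SA_A, SA_B, SAv, h0, 
        lt_irrefl, if_true, if_false, map_cj, map_mul, map_inv, SAi_a, SAi_e, SAi_A, SAi_B, SAiv, SAi_pp h0])
    <;> (try simp only [cj]) <;> group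

theorem SB_SBi (s : Fin b) : (SB s).comp (SBi s) = MonoidHom.id _ := by
  apply hom_ext' <;> intro r <;> rcases lt_trichotomy r s with h | rfl | h <;>
    (first
    | simp only [MonoidHom.comp_apply, MonoidHom.id_apply, SBi_a, SBi_e, SBi_A, SBi_B, SBiv, 
        h, h.not_gt, h.ne', lt_irrefl, if_true, if_false, map_cj, map_mul, map_inv, SB_a, SB_e, SB_A, SB_B, SBv, SB_pp]
    | simp only [MonoidHom.comp_apply, MonoidHom.id_apply, SBi_a, SBi_e, SBi_A, SBi_B, SBiv, 
        lt_irrefl, if_true, if_false, map_cj, map_mul, map_inv, SB_a, SB_e, SB_A, SB_B, SBv, SB_pp])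
    <;> (try simp only [cj]) <;> group

theorem SBi_SB (s : Fin b) : (SBi s).comp (SB s) = MonoidHom.id _ := by
  apply hom_ext' <;> intro r <;> rcases lt_trichotomy r s with h | rfl | h <;>
    (first
    | simp only [MonoidHom.comp_apply, MonoidHom.id_apply, SB_a, SB_e, SB_A, SB_B, SBv, 
        h, h.not_gt, h.ne', lt_irrefl, if_true, if_false, map_cj, map_mul, map_inv, SBi_a, SBi_e, SBi_A, SBi_B, SBiv, SBi_pp]
    | simp only [MonoidHom.comp_apply, MonoidHom.id_apply, SB_a, SB_e, SB_A, SB_B, SBv, 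
        lt_irrefl, if_true, if_false, map_cj, map_mul, map_inv, SBi_a, SBi_e, SBi_A, SBi_B, SBiv, SBi_pp])
    <;> (try simp only [cj]) <;> group

end H13SB.W
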