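import Pool.Agent.H13.SB.W.Inv

set_option linter.unusedSimpArgs false
set_option linter.unusedTactic false

namespace H13SB.W

variable {b : ℕ}

section values

variable (s r : Fin b)

theorem Cc_a : Cc s (a r) = Cv s r Knd.a := by simp [Cc, a]
theorem Cc_e : Cc s (e r) = Cv s r Knd.e := by simp [Cc, e]
theorem Cc_A : Cc s (A r) = Cv s r Knd.A := by simp [Cc, A]
theorem Cc_B : Cc s (B r) = Cv s r Knd.B := by simp [Cc, B]
theorem T_a (n : ℕ) : T n (a r) = Tv n r Knd.a := by simp [T, a]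
theorem T_e (n : ℕ) : T n (e r) = Tv n r Knd.e := by simp [T, e]
theorem T_A (n : ℕ) : T n (A r) = Tv n r Knd.A := by simp [T, A]
theorem T_B (n : ℕ) : T n (B r) = Tv n r Knd.B := by simp [T, B]

end values

theorem Cc_pp (s : Fin b) : Cc s pp = cj (kap s)⁻¹ pp := by
  have h := map_Lp_split (Cc s) Kap Kap s ((kap s)⁻¹ * pp * Kap s * pp⁻¹)
    ((kap s)⁻¹ * Kap s)
    (fun r hr => by
      rw [Kap, map_cm, Cc_A, Cc_B, cj_cm]
      simp only [Cv, hr, if_true, Kap])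
    (fun r hr => by
      rw [Kap, map_cm, Cc_A, Cc_B, cj_cm]
      simp only [Cv, hr.not_gt, hr.ne', if_false, Kap])
  rw [pp, h]
  change cj _ (Lp Kap s.val) * _ * cj _ (Rp (s.val + 1)) = cj (kap s)⁻¹ pp
  have h2 : Rp (s.val + 1) = (Kap s)⁻¹ * (Lp Kap s.val)⁻¹ * (pp : F b) := by
    rw [pp_split s]; group
  rw [h2, Kap, map_cm, Cc_A, Cc_B]
  simp only [Cv, lt_irrefl, if_true, if_false, cj, cm, Kap]
  group

theorem Cc_spec (s : Fin b) (h0 : s.val ≠ 0) :
    (SA s).comp (SB s) = (Cc s).comp ((SB s).comp (SA s)) := by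
  apply hom_ext' <;> intro r <;> rcases lt_trichotomy r s with h | rfl | h <;>
    (first
    | simp only [MonoidHom.comp_apply, SB_a, SB_e, SB_A, SB_B, SBv, SA_a, SA_e, SA_A, SA_B, SAv,
        Cc_a, Cc_e, Cc_A, Cc_B, Cv, h0, h, h.not_gt, h.ne', lt_irrefl, if_true, if_false,
        map_cj, map_mul, map_inv, SA_pp h0, SB_pp, Cc_pp]
    | simp only [MonoidHom.comp_apply, SB_a, SB_e, SB_A, SB_B, SBv, SA_a, SA_e, SA_A, SA_B, SAv,
        Cc_a, Cc_e, Cc_A, Cc_B, Cv, h0, lt_irrefl, if_true, if_false,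
        map_cj, map_mul, map_inv, SA_pp h0, SB_pp, Cc_pp])
    <;> simp only [cj, kap, Kap, cm] <;> group

end H13SB.W
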