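import Pool.Agent.H13.SB.W.Rel

set_option linter.unusedSimpArgs false
set_option linter.unusedTactic false

namespace H13SB.W

variable {b : ℕ}

theorem T_pp {n : ℕ} (hn : n ≤ b) :
    T n pp = pp⁻¹ * Rz n * pp * (Rz n)⁻¹ * (pp : F b) := by
  have h1 := map_Lp_left (T n) Kap Kap (pp⁻¹ * Rz n * Lp Kap n) n
    (fun r hr => by
      rw [Kap, map_cm, T_A, T_B, cj_cm]
      simp only [Tv, hr, if_true]) n le_rfl hn
  have h2 := map_Lp_right (T n) Kap Kap (pp⁻¹ * Rz n * (Rp n)⁻¹) n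
    (fun r hr => by
      rw [Kap, map_cm, T_A, T_B, cj_cm]
      simp only [Tv, hr.not_gt, if_false]) b hn le_rfl
  have h3 : (pp : F b) = Lp Kap n * ((Lp Kap n)⁻¹ * Lp Kap b) := by
    rw [pp]; group
  conv_lhs => rw [h3]
  rw [map_mul, h1, h2]
  change cj _ _ * cj _ (Rp n) = _
  have h4 : (Rp n : F b) = (Lp Kap n)⁻¹ * pp := rfl
  rw [h4]
  simp only [cj]
  group

theorem T_zz {n : ℕ} (hn : n ≤ b) :
    T n zz = pp⁻¹ * Rz n * pp * (Rz n)⁻¹ * (zz : F b) := by
  have h1 := map_Lp_left (T n) kap kap (pp⁻¹ * Rz n * pp * (Rz n)⁻¹) n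
    (fun r hr => by
      rw [kap, map_cm, T_a, T_e, cj_cm]
      simp only [Tv, hr, if_true]) n le_rfl hn
  have h2 := map_Lp_right (T n) kap kap pp⁻¹ n
    (fun r hr => by
      rw [kap, map_cm, T_a, T_e, cj_cm]
      simp only [Tv, hr.not_gt, if_false]) b hn le_rfl
  have h3 : (zz : F b) = Lp kap n * ((Lp kap n)⁻¹ * Lp kap b) := by
    rw [zz]; group
  conv_lhs => rw [h3]
  rw [map_mul, h1, h2]
  change cj _ _ * cj _ (Rz n) = _
  have h4 : (zz : F b) = Lp kap n * Rz n := by rw [Rz]; group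
  rw [h4]
  simp only [cj]
  group

theorem T_kap_ge {n : ℕ} {s : Fin b} (h : n ≤ s.val) : T n (kap s) = cj pp⁻¹ (kap s) := by
  rw [kap, map_cm, T_a, T_e, cj_cm]
  simp only [Tv, h.not_gt, if_false]

theorem T_Kap_ge {n : ℕ} {s : Fin b} (h : n ≤ s.val) :
    T n (Kap s) = cj (pp⁻¹ * Rz n * (Rp n)⁻¹) (Kap s) := by
  rw [Kap, map_cm, T_A, T_B, cj_cm]
  simp only [Tv, h.not_gt, if_false]

theorem Rz_succ (s : Fin b) : (Rz (s.val + 1) : F b) = (kap s)⁻¹ * Rz s.val := by
  rw [Rz, Rz, Lp_succ]; group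

theorem Rp_succ (s : Fin b) : (Rp (s.val + 1) : F b) = (Kap s)⁻¹ * Rp s.val := by
  rw [Rp, Rp, Lp_succ]; group

theorem Rz_zero : (Rz 0 : F b) = zz := by simp [Rz, Lp_zero]
theorem Rp_zero : (Rp 0 : F b) = pp := by simp [Rp, Lp_zero]

/-- `T (s+1) = T s ∘ C s`. -/
theorem T_succ (s : Fin b) : (T s.val).comp (Cc s) = T (s.val + 1) := by
  have hs : s.val ≤ b := s.isLt.le
  apply hom_ext' <;> intro r <;> rcases lt_trichotomy r s with h | rfl | h <;>
    (first
    | (have h' : r.val < s.val := h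
       have h'' : r.val < s.val + 1 := by omega
       simp only [MonoidHom.comp_apply, Cc_a, Cc_e, Cc_A, Cc_B, Cv, T_a, T_e, T_A, T_B, Tv, h, h',
        h'', if_true, map_cj, map_mul, map_inv, T_pp hs, T_kap_ge le_rfl, T_Kap_ge le_rfl,
        Rz_succ, Rp_succ, Lp_succ])
    | (have h' : ¬ r.val < s.val := by have : s.val < r.val := h; omega
       have h'' : ¬ r.val < s.val + 1 := by have : s.val < r.val := h; omega
       simp only [MonoidHom.comp_apply, Cc_a, Cc_e, Cc_A, Cc_B, Cv, T_a, T_e, T_A, T_B, Tv,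
        h.not_gt, h.ne', h', h'', if_false, map_cj, map_mul, map_inv, T_pp hs, T_kap_ge le_rfl,
        T_Kap_ge le_rfl, Rz_succ, Rp_succ, Lp_succ])
    | simp only [MonoidHom.comp_apply, Cc_a, Cc_e, Cc_A, Cc_B, Cv, T_a, T_e, T_A, T_B, Tv,
        lt_irrefl, Nat.lt_succ_self, if_true, if_false, map_cj, map_mul, map_inv, T_pp hs,
        T_kap_ge le_rfl, T_Kap_ge le_rfl, Rz_succ, Rp_succ, Lp_succ])
    <;> (try simp only [Rp])
    <;> simp only [cj] <;> group

theorem T_last : T b = MonoidHom.id (F b) := by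
  have hz : (Rz b : F b) = 1 := by simp [Rz, zz]
  have hp : (Lp Kap b : F b) = pp := rfl
  apply hom_ext' <;> intro r <;>
    simp only [T_a, T_e, T_A, T_B, Tv, r.isLt, if_true, MonoidHom.id_apply, hz, hp] <;>
    simp only [cj] <;> group

/-- `[SA 0, SB 0] = T 1`. -/
theorem T_one (s : Fin b) (h0 : s.val = 0) :
    (SA s).comp (SB s) = (T 1).comp ((SB s).comp (SA s)) := by
  have hb : 1 ≤ b := by have := s.isLt; omega
  have e1 : (Rz 1 : F b) = (kap s)⁻¹ * zz := by
    have := Rz_succ s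
    rw [h0, Rz_zero] at this
    exact this
  have e2 : (Rp 1 : F b) = (Kap s)⁻¹ * pp := by
    have := Rp_succ s
    rw [h0, Rp_zero] at this
    exact this
  have e3 : (Lp Kap 1 : F b) = Kap s := by
    have := Lp_succ (b := b) Kap s
    rw [h0, Lp_zero, one_mul] at this
    exact this
  apply hom_ext' <;> intro r <;> rcases lt_trichotomy r s with h | rfl | h <;>
    (first
    | exact absurd h (by rw [Fin.lt_def, h0]; omega)
    | (have h' : ¬ r.val < 1 := by have : s.val < r.val := h; omega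
       simp only [MonoidHom.comp_apply, SB_a, SB_e, SB_A, SB_B, SBv, SA_a, SA_e, SA_A, SA_B, SAv,
        T_a, T_e, T_A, T_B, Tv, h0, h', zero_lt_one, h.not_gt, h.ne', lt_irrefl, if_true, if_false,
        map_cj, map_mul, map_inv, SA_pp0 h0, SA_zz0 h0, SB_pp, SB_zz, T_pp hb, T_zz hb, e1, e2,
        e3])
    | simp only [MonoidHom.comp_apply, SB_a, SB_e, SB_A, SB_B, SBv, SA_a, SA_e, SA_A, SA_B, SAv,
        T_a, T_e, T_A, T_B, Tv, h0, zero_lt_one, lt_irrefl, if_true, if_false,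
        map_cj, map_mul, map_inv, SA_pp0 h0, SA_zz0 h0, SB_pp, SB_zz, T_pp hb, T_zz hb, e1, e2,
        e3])
    <;> simp only [cj, kap, Kap, cm] <;> group

end H13SB.W
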