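import Pool.Agent.H13.SB.W.Tau5

/-! Standard letters for the piece `W`. -/

set_option linter.unusedSimpArgs false
set_option linter.unusedTactic false

namespace H13SB.W

open SemidirectProduct

variable {b : ℕ}

theorem reverse_ofFn {α : Type*} (f : Fin b → α) :
    (List.ofFn f).reverse = List.ofFn fun i => f i.rev := by
  apply List.ext_getElem
  · simp
  · intro n h1 h2
    simp only [List.getElem_reverse, List.getElem_ofFn, List.length_ofFn]
    congr 1
    apply Fin.ext
    simp only [Fin.val_rev]
    simp at h2
    omega

/-- The letters of `F b` as handles: `b` handles `(B_{b-1-i}, A_{b-1-i})` and then `b` handles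
`(a_i, e_i)`. -/
def letterEquiv : Gen (b + b) ≃ WG b where
  toFun x := Fin.addCases (motive := fun _ => WG b)
    (fun i => (i.rev, if x.2 then Knd.A else Knd.B)) (fun i => (i, if x.2 then Knd.e else Knd.a))
    x.1
  invFun y := match y with
    | (i, Knd.A) => (Fin.castAdd b i.rev, true)
    | (i, Knd.B) => (Fin.castAdd b i.rev, false)
    | (i, Knd.e) => (Fin.natAdd b i, true)
    | (i, Knd.a) => (Fin.natAdd b i, false)
  left_inv x := by
    rcases x with ⟨i, t⟩
    induction i using Fin.addCases with
    | left i => cases t <;> simp only [Fin.addCases_left, if_true, Bool.false_eq_true, if_false,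
        Fin.rev_rev]
    | right i => cases t <;> simp only [Fin.addCases_right, if_true, Bool.false_eq_true, if_false]
  right_inv y := by
    rcases y with ⟨i, k⟩
    cases k <;> simp only [Fin.addCases_left, Fin.addCases_right, if_true, Bool.false_eq_true,
      if_false, Fin.rev_rev]

/-- The isomorphism from the standard free group. -/
def std : FreeGroup (Gen (b + b)) ≃* F b := FreeGroup.freeGroupCongr letterEquiv

theorem std_of (x : Gen (b + b)) : std (FreeGroup.of x) = FreeGroup.of (letterEquiv x) := by
  simp [std]

theorem std_surfRel : std (surfRel (b + b)) = (bd : F b) := by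
  have h1 : std (surfRel (b + b)) =
      (std (b := b)).toMonoidHom (inL (surfRel b)) * (std (b := b)).toMonoidHom
        (inR (surfRel b)) := by
    rw [surfRel_add]; exact map_mul _ _ _
  have h2 : (std (b := b)).toMonoidHom (inL (surfRel b)) = pp⁻¹ := by
    have := map_surfRel (b := b) ((std (b := b)).toMonoidHom.comp inL)
    rw [MonoidHom.comp_apply] at this
    rw [this, pp, Lp_all, List.prod_inv_reverse, List.map_ofFn, reverse_ofFn]
    congr 2
    funext i
    simp only [MonoidHom.comp_apply, inL, FreeGroup.map.of, Function.comp]
    change cm (std (FreeGroup.of _)) (std (FreeGroup.of _)) = _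
    rw [std_of, std_of]
    simp only [genL, letterEquiv, Equiv.coe_fn_mk, Fin.addCases_left, if_true]
    change cm (B i.rev) (A i.rev) = (cm (A i.rev) (B i.rev))⁻¹
    simp only [cm]; group
  have h3 : (std (b := b)).toMonoidHom (inR (surfRel b)) = zz := by
    have := map_surfRel (b := b) ((std (b := b)).toMonoidHom.comp inR)
    rw [MonoidHom.comp_apply] at this
    rw [this, zz, Lp_all]
    congr 2
    funext i
    simp only [MonoidHom.comp_apply, inR, FreeGroup.map.of]
    change cm (std (FreeGroup.of _)) (std (FreeGroup.of _)) = _
    rw [std_of, std_of]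
    simp only [genR, letterEquiv, Equiv.coe_fn_mk, Fin.addCases_right, if_true]
    rfl
  rw [h1, h2, h3, bd]

/-- Transport of an automorphism. -/
def trans : MulAut (F b) →* MulAut (FreeGroup (Gen (b + b))) :=
  (MulAut.congr (std (b := b)).symm).toMonoidHom

theorem trans_apply (f : MulAut (F b)) (w : FreeGroup (Gen (b + b))) :
    trans f w = std.symm (f (std w)) := rfl

/-- The piece `W` of genus `2b` over the surface group of genus `b`. -/
def piece (b : ℕ) : Piece (SurfaceGroup b) (b + b) where
  ρ := trans.comp rho
  bdry γ := by
    change trans (rho γ) _ = _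
    rw [trans_apply, std_surfRel, rho_bd, ← std_surfRel]
    exact std.symm_apply_apply _

theorem piece_apply (γ : SurfaceGroup b) (w : FreeGroup (Gen (b + b))) :
    (piece b).ρ γ w = std.symm (rho γ (std w)) := rfl

/-- The second fibering of the piece. -/
def hP (b : ℕ) : FreeGroup (Gen (b + b)) →* SurfaceGroup b := hW.comp std.toMonoidHom

theorem alt_piece (b : ℕ) : Alt (piece b) (hP b) := by
  let E : FreeGroup (Gen (b + b)) ⋊[(piece b).ρ] SurfaceGroup b ≃* PW b :=
    SemidirectProduct.congr std (MulEquiv.refl _) (fun γ => by
      apply MulEquiv.ext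
      intro w
      change std ((piece b).ρ γ w) = rho γ (std w)
      rw [piece_apply]; exact std.apply_symm_apply _)
  refine ⟨(MulAut.congr E.symm) tauM, ?_, ?_, ?_⟩
  · intro γ
    change E.symm (tauM (E (inr γ))) = inr γ
    rw [MulEquiv.symm_apply_eq]
    have h : E (inr γ) = inr γ := by
      apply SemidirectProduct.ext <;> simp [E]
    rw [h, tauM_apply, tau_inr]
  · change E.symm (tauM (E (inl _))) = inl _
    rw [MulEquiv.symm_apply_eq]
    have h : E (inl (surfRel (b + b))) = inl bd := by
      rw [← std_surfRel]
      apply SemidirectProduct.ext <;> simp [E]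
    rw [h, tauM_apply, tau_inl, tau0_bd]
  · intro w
    change (E.symm (tauM (E (inl w)))).right = _
    have h : E (inl w) = inl (std w) := by
      apply SemidirectProduct.ext <;> simp [E]
    rw [h]
    have h2 : ∀ x : PW b, (E.symm x).right = x.right := fun x => by
      obtain ⟨y, rfl⟩ := E.surjective x
      rw [E.symm_apply_apply]
      simp [E]
    rw [h2, hW_apply]
    rfl

theorem hP_of (i : Fin b) : hP b (FreeGroup.of (Fin.castAdd b i.rev, false)) = sgen (i, true) := by
  change hW (std (FreeGroup.of _)) = _
  rw [std_of]
  have : letterEquiv (b := b) (Fin.castAdd b i.rev, false) = (i, Knd.B) := by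
    simp [letterEquiv]
  rw [this]
  exact hW_B i

end H13SB.W
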