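import Pool.Agent.H13.SB.W.Action

set_option linter.unusedSimpArgs false
set_option linter.unusedTactic false

namespace H13SB.W

open SemidirectProduct

variable {b : ℕ}

/-- The group of the piece `W`. -/
abbrev PW (b : ℕ) : Type := F b ⋊[rho] SurfaceGroup b

def ga (i : Fin b) : SurfaceGroup b := sgen (i, false)
def gb (i : Fin b) : SurfaceGroup b := sgen (i, true)

@[simp] theorem rho_ga (i : Fin b) : rho (ga i) = SAm i := rho_a i
@[simp] theorem rho_gb (i : Fin b) : rho (gb i) = SBm i := rho_b i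

def tauv (r : Fin b) : Knd → PW b
  | Knd.a => inl (a r)
  | Knd.e => inl (e r)
  | Knd.A => if r.val = 0 then inl (A r)⁻¹ * inr (ga r) * inl pp
      else inl ((A r)⁻¹ * a r) * inr (ga r)
  | Knd.B => inr (gb r) * inl (e r * (B r)⁻¹)

def tau0 : F b →* PW b := FreeGroup.lift fun x => tauv x.1 x.2

theorem tau0_a (r : Fin b) : tau0 (a r) = inl (a r) := by simp [tau0, a, tauv]
theorem tau0_e (r : Fin b) : tau0 (e r) = inl (e r) := by simp [tau0, e, tauv]
theorem tau0_A (r : Fin b) : tau0 (A r) = tauv r Knd.A := by simp [tau0, A]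
theorem tau0_B (r : Fin b) : tau0 (B r) = inr (gb r) * inl (e r * (B r)⁻¹) := by
  simp [tau0, B, tauv]

theorem tau0_Kap (s : Fin b) (h0 : s.val ≠ 0) :
    tau0 (Kap s) = inl ((Kap s)⁻¹ * kap s) * inr (cm (ga s) (gb s)) := by
  rw [Kap, map_cm, tau0_A, tau0_B]
  simp only [tauv, h0, if_false]
  apply SemidirectProduct.ext
  · simp only [cm, mul_left, mul_right, inv_left, inv_right, left_inl, right_inl, left_inr,
      right_inr, map_mul, map_inv, map_one, one_mul, mul_one, MulAut.mul_apply, rho_ga, rho_gb,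
      SAm_apply, SBm_apply, SAm_inv_apply, SBm_inv_apply, MulAut.one_apply, inv_one,
      SA_a, SA_e, SA_A, SA_B, SAi_a, SAi_e, SAi_A, SAi_B, SB_a, SB_e, SB_A, SB_B,
      SBi_a, SBi_e, SBi_A, SBi_B, SAv, SAiv, SBv, SBiv, h0, lt_irrefl, if_true, if_false,
      map_cj, SA_pp h0, SAi_pp h0, SB_pp, SBi_pp, kap]
    simp only [cj]
    group
  · simp only [cm, mul_right, inv_right, right_inl, right_inr, one_mul, mul_one]

end H13SB.W
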