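import Pool.Agent.H13.SB.W.Tau

set_option linter.unusedSimpArgs false
set_option linter.unusedTactic false

namespace H13SB.W

open SemidirectProduct

variable {b : ℕ}

theorem tau0_Kap0 (s : Fin b) (h0 : s.val = 0) :
    tau0 (Kap s) = inl ((Kap s)⁻¹ * pp * zz⁻¹ * kap s * pp) * inr (cm (ga s) (gb s)) := by
  rw [Kap, map_cm, tau0_A, tau0_B]
  simp only [tauv, h0, if_true]
  apply SemidirectProduct.ext
  · simp only [cm, mul_left, mul_right, inv_left, inv_right, left_inl, right_inl, left_inr,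
      right_inr, map_mul, map_inv, map_one, one_mul, mul_one, MulAut.mul_apply, rho_ga, rho_gb,
      SAm_apply, SBm_apply, SAm_inv_apply, SBm_inv_apply, MulAut.one_apply, inv_one,
      SA_a, SA_e, SA_A, SA_B, SAi_a, SAi_e, SAi_A, SAi_B, SB_a, SB_e, SB_A, SB_B,
      SBi_a, SBi_e, SBi_A, SBi_B, SAv, SAiv, SBv, SBiv, h0, lt_irrefl, if_true, if_false,
      map_cj, SA_pp0 h0, SAi_pp0 h0, SA_zz0 h0, SAi_zz0 h0, SB_pp, SB_zz, SBi_pp, kap]
    simp only [cj]
    group
  · simp only [cm, mul_right, inv_right, right_inl, right_inr, one_mul, mul_one]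

theorem rho_Lp (n : ℕ) (h1 : 1 ≤ n) (h2 : n ≤ b) (w : F b) :
    rho (Lp (fun i : Fin b => cm (ga i) (gb i)) n) w = T n w := by
  have h : rho (Lp (fun i : Fin b => cm (ga i) (gb i)) n) =
      Lp (fun i : Fin b => cm (SAm i) (SBm i)) n := by
    rw [Lp, Lp, map_list_prod, List.map_take, List.map_ofFn]
    congr 3
  obtain ⟨m, rfl⟩ : ∃ m, n = m + 1 := ⟨n - 1, by omega⟩
  rw [h]
  exact Lp_cm_apply m (by omega) w

theorem tau0_Lp (n : ℕ) (h2 : n + 1 ≤ b) :
    tau0 (Lp Kap (n + 1)) = inl (Rp (n + 1) * (Rz (n + 1))⁻¹ * pp) *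
      inr (Lp (fun i : Fin b => cm (ga i) (gb i)) (n + 1)) := by
  induction n with
  | zero =>
    have e0 := Lp_succ (b := b) Kap ⟨0, h2⟩
    have e1 := Lp_succ (b := b) (fun i => cm (ga i) (gb i)) ⟨0, h2⟩
    have e2 := Rz_succ (b := b) ⟨0, h2⟩
    have e3 := Rp_succ (b := b) ⟨0, h2⟩
    simp only [Lp_zero, one_mul, Rz_zero, Rp_zero] at e0 e1 e2 e3
    rw [e0, e1, e2, e3, tau0_Kap0 _ rfl]
    congr 2
    group
  | succ n ih =>
    have e0 := Lp_succ (b := b) Kap ⟨n + 1, h2⟩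
    have e1 := Lp_succ (b := b) (fun i => cm (ga i) (gb i)) ⟨n + 1, h2⟩
    have e2 := Rz_succ (b := b) ⟨n + 1, h2⟩
    have e3 := Rp_succ (b := b) ⟨n + 1, h2⟩
    simp only at e0 e1 e2 e3
    rw [e0, e1, e2, e3, map_mul, ih (by omega), tau0_Kap _ (by simp)]
    apply SemidirectProduct.ext
    · simp only [mul_left, mul_right, left_inl, right_inl, left_inr, right_inr, one_mul, map_one,
        mul_one, MulAut.one_apply]
      rw [rho_Lp (n + 1) (by omega) (by omega), map_mul, map_inv,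
        T_kap_ge (s := ⟨n + 1, h2⟩) le_rfl, T_Kap_ge (s := ⟨n + 1, h2⟩) le_rfl]
      simp only [cj]
      group
    · simp only [mul_right, right_inl, right_inr, one_mul]

theorem map_surfRel {H : Type*} [Group H] (f : FreeGroup (Gen b) →* H) :
    f (surfRel b) = (List.ofFn fun i : Fin b =>
      cm (f (FreeGroup.of (i, false))) (f (FreeGroup.of (i, true)))).prod := by
  rw [surfRel, map_list_prod, List.map_ofFn]
  congr 2
  funext i
  exact map_cm _ _ _

theorem surf_rel : (List.ofFn fun i : Fin b => cm (ga i) (gb i)).prod = 1 := by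
  have h : PresentedGroup.mk ({surfRel b} : Set (FreeGroup (Gen b))) (surfRel b) = 1 :=
    PresentedGroup.one_of_mem (rels := {surfRel b}) rfl
  rw [map_surfRel] at h
  exact h

theorem tau0_pp : tau0 (pp : F b) = inl pp := by
  rcases Nat.eq_zero_or_pos b with h | h
  · subst h
    rw [pp, Lp_zero, map_one, map_one]
  · obtain ⟨m, rfl⟩ : ∃ m, b = m + 1 := ⟨b - 1, by omega⟩
    have h1 := tau0_Lp (b := m + 1) m le_rfl
    have e2 : (Rz (m + 1) : F (m + 1)) = 1 := by simp [Rz, zz]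
    have e3 : (Rp (m + 1) : F (m + 1)) = 1 := by simp [Rp, pp]
    rw [e2, e3, Lp_all (fun i : Fin (m + 1) => cm (ga i) (gb i)), surf_rel, map_one, mul_one,
      inv_one, mul_one, one_mul] at h1
    exact h1

theorem inr_inl (γ : SurfaceGroup b) (w : F b) :
    (inr γ : PW b) * inl w * (inr γ)⁻¹ = inl (rho γ w) := by
  rw [← map_inv]
  exact (inl_aut γ w).symm

end H13SB.W
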