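import Pool.Agent.H13.SB.W.Tau2

set_option linter.unusedSimpArgs false
set_option linter.unusedTactic false

namespace H13SB.W

open SemidirectProduct

variable {b : ℕ}

theorem tau0_Lk (n : ℕ) (h2 : n ≤ b) : tau0 (Lp kap n : F b) = inl (Lp kap n) := by
  have h := map_Lp_left (tau0 (b := b)) kap (fun r => (inl (kap r) : PW b)) 1 n
    (fun r _ => by
      rw [kap, map_cm, tau0_a, tau0_e, map_cm]
      simp [cj]) n le_rfl h2
  have h' := map_Lp_left (inl : F b →* PW b) kap (fun r => (inl (kap r) : PW b)) 1 n
    (fun r _ => by simp [cj]) n le_rfl h2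
  rw [h, h']

theorem tau0_zz : tau0 (zz : F b) = inl zz := tau0_Lk b le_rfl

theorem map_cj' {G H : Type*} [Group G] [Group H] (f : G →* H) (c x : G) :
    f (cj c x) = f c * f x * (f c)⁻¹ := by
  simp [cj]

theorem tau_equiv_a0 (s : Fin b) (h0 : s.val = 0) :
    tau0.comp (SA s) = (MulAut.conj (inr (ga s))).toMonoidHom.comp tau0 := by
  have hl : ∀ w : F b, tau0 w = inl w → tau0 (SA s w) = inl (SA s w) →
      (tau0.comp (SA s)) w = ((MulAut.conj (inr (ga s))).toMonoidHom.comp tau0) w := by
    intro w h1 h2
    rw [MonoidHom.comp_apply, MonoidHom.comp_apply, h1, h2]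
    change _ = inr (ga s) * inl w * (inr (ga s))⁻¹
    rw [inr_inl, rho_ga, SAm_apply]
  apply hom_ext' <;> intro r
  · apply hl _ (tau0_a r)
    rw [SA_a]
    by_cases h : r = s <;> simp only [SAv, h0, h, if_true, if_false, map_cj', map_mul, map_inv,
      tau0_a, tau0_zz]
  · apply hl _ (tau0_e r)
    rw [SA_e]
    by_cases h : r = s <;> simp only [SAv, h0, h, if_true, if_false, map_cj', map_mul, map_inv,
      tau0_a, tau0_e, tau0_zz]
  all_goals
    rw [MonoidHom.comp_apply, MonoidHom.comp_apply]
    change _ = inr (ga s) * tau0 _ * (inr (ga s))⁻¹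
    by_cases h : r = s
    · subst h
      simp only [SA_A, SA_B, SAv, h0, if_true, map_mul, map_inv, tau0_pp, tau0_A, tau0_B, tauv]
      apply SemidirectProduct.ext
      · simp only [cm, mul_left, mul_right, inv_left, inv_right, left_inl, right_inl, left_inr,
          right_inr, map_mul, map_inv, map_one, one_mul, mul_one, MulAut.mul_apply, rho_ga,
          rho_gb,
          SAm_apply, SBm_apply, SAm_inv_apply, SBm_inv_apply, MulAut.one_apply, inv_one,
          SA_a, SA_e, SA_A, SA_B, SAi_a, SAi_e, SAi_A, SAi_B, SB_a, SB_e, SB_A, SB_B,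
          SBi_a, SBi_e, SBi_A, SBi_B, SAv, SAiv, SBv, SBiv, h0, lt_irrefl, if_true, if_false,
          map_cj, SA_pp0 h0, SAi_pp0 h0, SA_zz0 h0, SAi_zz0 h0, SB_pp, SB_zz, SBi_pp, kap]
        (try simp only [cj])
        (try group)
      · simp only [mul_right, inv_right, right_inl, right_inr, one_mul, mul_one, inv_one]
        try group
    · have hr0 : ¬ r.val = 0 := fun h' => h (Fin.ext (by rw [h', h0]))
      have hrs : s < r := by rw [Fin.lt_def, h0]; omega
      have hsr : ¬ s = r := fun h' => h h'.symm
      simp only [SA_A, SA_B, SAv, h0, h, hr0, if_true, if_false, map_cj', map_mul, map_inv,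
        tau0_pp, tau0_A, tau0_B, tauv]
      apply SemidirectProduct.ext
      · simp only [cm, mul_left, mul_right, inv_left, inv_right, left_inl, right_inl, left_inr,
          right_inr, map_mul, map_inv, map_one, one_mul, mul_one, MulAut.mul_apply, rho_ga,
          rho_gb,
          SAm_apply, SBm_apply, SAm_inv_apply, SBm_inv_apply, MulAut.one_apply, inv_one,
          SA_a, SA_e, SA_A, SA_B, SAi_a, SAi_e, SAi_A, SAi_B, SB_a, SB_e, SB_A, SB_B,
          SBi_a, SBi_e, SBi_A, SBi_B, SAv, SAiv, SBv, SBiv, h0, h, hr0, hrs, hrs.not_gt, hsr,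
          lt_irrefl, if_true, if_false,
          map_cj, SA_pp0 h0, SAi_pp0 h0, SA_zz0 h0, SAi_zz0 h0, SB_pp, SB_zz, SBi_pp, kap,
          SA_pp hr0, SAi_pp hr0, SA_zz hr0]
        (try simp only [cj])
        (try group)
      · simp only [mul_right, inv_right, right_inl, right_inr, one_mul, mul_one, inv_one]
        try group

theorem tau_equiv_a1 (s : Fin b) (h0 : s.val ≠ 0) :
    tau0.comp (SA s) = (MulAut.conj (inr (ga s))).toMonoidHom.comp tau0 := by
  have hl : ∀ w : F b, tau0 w = inl w → tau0 (SA s w) = inl (SA s w) →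
      (tau0.comp (SA s)) w = ((MulAut.conj (inr (ga s))).toMonoidHom.comp tau0) w := by
    intro w h1 h2
    rw [MonoidHom.comp_apply, MonoidHom.comp_apply, h1, h2]
    change _ = inr (ga s) * inl w * (inr (ga s))⁻¹
    rw [inr_inl, rho_ga, SAm_apply]
  apply hom_ext' <;> intro r
  · apply hl _ (tau0_a r)
    rw [SA_a]
    rcases lt_trichotomy r s with h | rfl | h
    · simp only [SAv, h0, h, if_true, if_false, map_cj', map_mul, map_inv, tau0_a, tau0_pp]
    · simp only [SAv, h0, lt_irrefl, if_true, if_false, map_mul, map_inv, tau0_a, tau0_pp]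
    · simp only [SAv, h0, h.not_gt, h.ne', if_false, tau0_a]
  · apply hl _ (tau0_e r)
    rw [SA_e]
    rcases lt_trichotomy r s with h | rfl | h
    · simp only [SAv, h0, h, if_true, if_false, map_cj', map_mul, map_inv, tau0_a, tau0_e,
        tau0_pp]
    · simp only [SAv, h0, lt_irrefl, if_true, if_false, map_mul, map_inv, tau0_a, tau0_e,
        tau0_pp]
    · simp only [SAv, h0, h.not_gt, h.ne', if_false, tau0_e]
  all_goals
    rw [MonoidHom.comp_apply, MonoidHom.comp_apply]
    change _ = inr (ga s) * tau0 _ * (inr (ga s))⁻¹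
    rcases lt_trichotomy r s with h | rfl | h
    · by_cases hr0 : r.val = 0
      · simp only [SA_A, SA_B, SAv, h0, h, hr0, if_true, if_false, map_cj', map_mul, map_inv,
          tau0_pp, tau0_a, tau0_e, tau0_A, tau0_B, tauv]
        apply SemidirectProduct.ext
        · simp only [mul_left, mul_right, inv_left, inv_right, left_inl, right_inl, left_inr,
            right_inr, map_mul, map_inv, map_one, one_mul, mul_one, MulAut.mul_apply, rho_ga,
            rho_gb,
            SAm_apply, SBm_apply, SAm_inv_apply, SBm_inv_apply, MulAut.one_apply, inv_one,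
            SA_a, SA_e, SA_A, SA_B, SAi_a, SAi_e, SAi_A, SAi_B, SB_a, SB_e, SB_A, SB_B,
            SBi_a, SBi_e, SBi_A, SBi_B, SAv, SAiv, SBv, SBiv, h0, hr0, h, h.not_gt, h.ne, h.ne',
            lt_irrefl, if_true, if_false,
            map_cj, SA_pp0 hr0, SAi_pp0 hr0, SA_zz0 hr0, SAi_zz0 hr0, SA_pp h0, SAi_pp h0,
            SA_zz h0, SB_pp, SB_zz, SBi_pp]
          (try simp only [cj])
          (try group)
        · simp only [mul_right, inv_right, right_inl, right_inr, one_mul, mul_one, inv_one]
          try group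
      · simp only [SA_A, SA_B, SAv, h0, h, hr0, if_true, if_false, map_cj', map_mul, map_inv,
          tau0_pp, tau0_a, tau0_e, tau0_A, tau0_B, tauv]
        apply SemidirectProduct.ext
        · simp only [mul_left, mul_right, inv_left, inv_right, left_inl, right_inl, left_inr,
            right_inr, map_mul, map_inv, map_one, one_mul, mul_one, MulAut.mul_apply, rho_ga,
            rho_gb,
            SAm_apply, SBm_apply, SAm_inv_apply, SBm_inv_apply, MulAut.one_apply, inv_one,
            SA_a, SA_e, SA_A, SA_B, SAi_a, SAi_e, SAi_A, SAi_B, SB_a, SB_e, SB_A, SB_B,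
            SBi_a, SBi_e, SBi_A, SBi_B, SAv, SAiv, SBv, SBiv, h0, hr0, h, h.not_gt, h.ne, h.ne',
            lt_irrefl, if_true, if_false,
            map_cj, SA_pp h0, SAi_pp h0, SA_pp hr0, SAi_pp hr0,
            SA_zz h0, SB_pp, SB_zz, SBi_pp]
          (try simp only [cj])
          (try group)
        · simp only [mul_right, inv_right, right_inl, right_inr, one_mul, mul_one, inv_one]
          try group
    · simp only [SA_A, SA_B, SAv, h0, lt_irrefl, if_true, if_false, map_cj', map_mul, map_inv,
        tau0_pp, tau0_a, tau0_e, tau0_A, tau0_B, tauv]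
      apply SemidirectProduct.ext
      · simp only [mul_left, mul_right, inv_left, inv_right, left_inl, right_inl, left_inr,
          right_inr, map_mul, map_inv, map_one, one_mul, mul_one, MulAut.mul_apply, rho_ga,
          rho_gb,
          SAm_apply, SBm_apply, SAm_inv_apply, SBm_inv_apply, MulAut.one_apply, inv_one,
          SA_a, SA_e, SA_A, SA_B, SAi_a, SAi_e, SAi_A, SAi_B, SB_a, SB_e, SB_A, SB_B,
          SBi_a, SBi_e, SBi_A, SBi_B, SAv, SAiv, SBv, SBiv, h0,
          lt_irrefl, if_true, if_false,
          map_cj, SA_pp h0, SAi_pp h0, SA_zz h0, SB_pp, SB_zz, SBi_pp]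
        (try simp only [cj])
        (try group)
      · simp only [mul_right, inv_right, right_inl, right_inr, one_mul, mul_one, inv_one]
        try group
    · have hr0 : ¬ r.val = 0 := by have : s.val < r.val := h; omega
      simp only [SA_A, SA_B, SAv, h0, h.not_gt, h.ne', hr0, if_false, map_cj', map_mul,
        map_inv, tau0_pp, tau0_a, tau0_e, tau0_A, tau0_B, tauv]
      apply SemidirectProduct.ext
      · simp only [mul_left, mul_right, inv_left, inv_right, left_inl, right_inl, left_inr,
          right_inr, map_mul, map_inv, map_one, one_mul, mul_one, MulAut.mul_apply, rho_ga,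
          rho_gb,
          SAm_apply, SBm_apply, SAm_inv_apply, SBm_inv_apply, MulAut.one_apply, inv_one,
          SA_a, SA_e, SA_A, SA_B, SAi_a, SAi_e, SAi_A, SAi_B, SB_a, SB_e, SB_A, SB_B,
          SBi_a, SBi_e, SBi_A, SBi_B, SAv, SAiv, SBv, SBiv, h0, hr0, h, h.not_gt, h.ne, h.ne',
          lt_irrefl, if_true, if_false,
          map_cj, SA_pp h0, SAi_pp h0, SA_pp hr0, SAi_pp hr0,
          SA_zz h0, SB_pp, SB_zz, SBi_pp]
        (try simp only [cj])
        (try group)
      · simp only [mul_right, inv_right, right_inl, right_inr, one_mul, mul_one, inv_one]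
        try group

theorem tau_equiv_a (s : Fin b) :
    tau0.comp (SA s) = (MulAut.conj (inr (ga s))).toMonoidHom.comp tau0 := by
  by_cases h0 : s.val = 0
  · exact tau_equiv_a0 s h0
  · exact tau_equiv_a1 s h0

end H13SB.W
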