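import Pool.Agent.H13.SB.W.Tau3

set_option linter.unusedSimpArgs false
set_option linter.unusedTactic false

namespace H13SB.W

open SemidirectProduct

variable {b : ℕ}

theorem tau_equiv_b (s : Fin b) :
    tau0.comp (SB s) = (MulAut.conj (inr (gb s))).toMonoidHom.comp tau0 := by
  have hl : ∀ w : F b, tau0 w = inl w → tau0 (SB s w) = inl (SB s w) →
      (tau0.comp (SB s)) w = ((MulAut.conj (inr (gb s))).toMonoidHom.comp tau0) w := by
    intro w h1 h2
    rw [MonoidHom.comp_apply, MonoidHom.comp_apply, h1, h2]
    change _ = inr (gb s) * inl w * (inr (gb s))⁻¹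
    rw [inr_inl, rho_gb, SBm_apply]
  apply hom_ext' <;> intro r
  · apply hl _ (tau0_a r)
    rw [SB_a]
    rcases lt_trichotomy r s with h | rfl | h
    · simp only [SBv, h, if_true, map_cj', map_mul, map_inv, tau0_a, tau0_e, tau0_pp]
    · simp only [SBv, lt_irrefl, if_true, if_false, map_mul, map_inv, tau0_a, tau0_e, tau0_pp]
    · simp only [SBv, h.not_gt, h.ne', if_false, tau0_a]
  · apply hl _ (tau0_e r)
    rw [SB_e]
    rcases lt_trichotomy r s with h | rfl | h
    · simp only [SBv, h, if_true, map_cj', map_mul, map_inv, tau0_a, tau0_e, tau0_pp]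
    · simp only [SBv, lt_irrefl, if_true, if_false, map_mul, map_inv, tau0_a, tau0_e, tau0_pp]
    · simp only [SBv, h.not_gt, h.ne', if_false, tau0_e]
  all_goals
    rw [MonoidHom.comp_apply, MonoidHom.comp_apply]
    change _ = inr (gb s) * tau0 _ * (inr (gb s))⁻¹
    rcases lt_trichotomy r s with h | rfl | h
    · have hs0 : ¬ s.val = 0 := by have : r.val < s.val := h; omega
      by_cases hr0 : r.val = 0
      · simp only [SB_A, SB_B, SBv, h, hr0, if_true, if_false, map_cj', map_mul,
          map_inv, tau0_pp, tau0_a, tau0_e, tau0_A, tau0_B, tauv]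
        apply SemidirectProduct.ext
        · simp only [mul_left, mul_right, inv_left, inv_right, left_inl, right_inl, left_inr,
            right_inr, map_mul, map_inv, map_one, one_mul, mul_one, MulAut.mul_apply, rho_ga,
            rho_gb,
            SAm_apply, SBm_apply, SAm_inv_apply, SBm_inv_apply, MulAut.one_apply, inv_one,
            SA_a, SA_e, SA_A, SA_B, SAi_a, SAi_e, SAi_A, SAi_B, SB_a, SB_e, SB_A, SB_B,
            SBi_a, SBi_e, SBi_A, SBi_B, SAv, SAiv, SBv, SBiv,
            lt_irrefl, if_true, if_false, map_cj, SB_pp, SB_zz, SBi_pp, hr0, hs0, h, h.not_gt, h.ne, h.ne', SA_pp0 hr0, SAi_pp0 hr0, SA_zz0 hr0, SAi_zz0 hr0, SA_pp hs0, SAi_pp hs0, SA_zz hs0]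
          (try simp only [cj])
          (try group)
        · simp only [mul_right, inv_right, right_inl, right_inr, one_mul, mul_one, inv_one]
          try group
      · simp only [SB_A, SB_B, SBv, h, hr0, if_true, if_false, map_cj', map_mul,
          map_inv, tau0_pp, tau0_a, tau0_e, tau0_A, tau0_B, tauv]
        apply SemidirectProduct.ext
        · simp only [mul_left, mul_right, inv_left, inv_right, left_inl, right_inl, left_inr,
            right_inr, map_mul, map_inv, map_one, one_mul, mul_one, MulAut.mul_apply, rho_ga,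
            rho_gb,
            SAm_apply, SBm_apply, SAm_inv_apply, SBm_inv_apply, MulAut.one_apply, inv_one,
            SA_a, SA_e, SA_A, SA_B, SAi_a, SAi_e, SAi_A, SAi_B, SB_a, SB_e, SB_A, SB_B,
            SBi_a, SBi_e, SBi_A, SBi_B, SAv, SAiv, SBv, SBiv,
            lt_irrefl, if_true, if_false, map_cj, SB_pp, SB_zz, SBi_pp, hr0, hs0, h, h.not_gt, h.ne, h.ne', SA_pp hr0, SAi_pp hr0, SA_zz hr0, SA_pp hs0, SAi_pp hs0, SA_zz hs0]
          (try simp only [cj])
          (try group)
        · simp only [mul_right, inv_right, right_inl, right_inr, one_mul, mul_one, inv_one]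
          try group
    · by_cases hr0 : r.val = 0
      · simp only [SB_A, SB_B, SBv, lt_irrefl, hr0, if_true, if_false, map_cj', map_mul,
          map_inv, tau0_pp, tau0_a, tau0_e, tau0_A, tau0_B, tauv]
        apply SemidirectProduct.ext
        · simp only [mul_left, mul_right, inv_left, inv_right, left_inl, right_inl, left_inr,
            right_inr, map_mul, map_inv, map_one, one_mul, mul_one, MulAut.mul_apply, rho_ga,
            rho_gb,
            SAm_apply, SBm_apply, SAm_inv_apply, SBm_inv_apply, MulAut.one_apply, inv_one,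
            SA_a, SA_e, SA_A, SA_B, SAi_a, SAi_e, SAi_A, SAi_B, SB_a, SB_e, SB_A, SB_B,
            SBi_a, SBi_e, SBi_A, SBi_B, SAv, SAiv, SBv, SBiv,
            lt_irrefl, if_true, if_false, map_cj, SB_pp, SB_zz, SBi_pp, hr0, SA_pp0 hr0, SAi_pp0 hr0, SA_zz0 hr0, SAi_zz0 hr0]
          (try simp only [cj])
          (try group)
        · simp only [mul_right, inv_right, right_inl, right_inr, one_mul, mul_one, inv_one]
          try group
      · simp only [SB_A, SB_B, SBv, lt_irrefl, hr0, if_true, if_false, map_cj', map_mul,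
          map_inv, tau0_pp, tau0_a, tau0_e, tau0_A, tau0_B, tauv]
        apply SemidirectProduct.ext
        · simp only [mul_left, mul_right, inv_left, inv_right, left_inl, right_inl, left_inr,
            right_inr, map_mul, map_inv, map_one, one_mul, mul_one, MulAut.mul_apply, rho_ga,
            rho_gb,
            SAm_apply, SBm_apply, SAm_inv_apply, SBm_inv_apply, MulAut.one_apply, inv_one,
            SA_a, SA_e, SA_A, SA_B, SAi_a, SAi_e, SAi_A, SAi_B, SB_a, SB_e, SB_A, SB_B,
            SBi_a, SBi_e, SBi_A, SBi_B, SAv, SAiv, SBv, SBiv,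
            lt_irrefl, if_true, if_false, map_cj, SB_pp, SB_zz, SBi_pp, hr0, SA_pp hr0, SAi_pp hr0, SA_zz hr0]
          (try simp only [cj])
          (try group)
        · simp only [mul_right, inv_right, right_inl, right_inr, one_mul, mul_one, inv_one]
          try group
    · have hr0 : ¬ r.val = 0 := by have : s.val < r.val := h; omega
      by_cases hs0 : s.val = 0
      · simp only [SB_A, SB_B, SBv, h.not_gt, h.ne', hr0, if_true, if_false, map_cj', map_mul,
          map_inv, tau0_pp, tau0_a, tau0_e, tau0_A, tau0_B, tauv]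
        apply SemidirectProduct.ext
        · simp only [mul_left, mul_right, inv_left, inv_right, left_inl, right_inl, left_inr,
            right_inr, map_mul, map_inv, map_one, one_mul, mul_one, MulAut.mul_apply, rho_ga,
            rho_gb,
            SAm_apply, SBm_apply, SAm_inv_apply, SBm_inv_apply, MulAut.one_apply, inv_one,
            SA_a, SA_e, SA_A, SA_B, SAi_a, SAi_e, SAi_A, SAi_B, SB_a, SB_e, SB_A, SB_B,
            SBi_a, SBi_e, SBi_A, SBi_B, SAv, SAiv, SBv, SBiv,
            lt_irrefl, if_true, if_false, map_cj, SB_pp, SB_zz, SBi_pp, hr0, hs0, h, h.not_gt, h.ne, h.ne', SA_pp hr0, SAi_pp hr0, SA_zz hr0, SA_pp0 hs0, SAi_pp0 hs0, SA_zz0 hs0, SAi_zz0 hs0]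
          (try simp only [cj])
          (try group)
        · simp only [mul_right, inv_right, right_inl, right_inr, one_mul, mul_one, inv_one]
          try group
      · simp only [SB_A, SB_B, SBv, h.not_gt, h.ne', hr0, if_true, if_false, map_cj', map_mul,
          map_inv, tau0_pp, tau0_a, tau0_e, tau0_A, tau0_B, tauv]
        apply SemidirectProduct.ext
        · simp only [mul_left, mul_right, inv_left, inv_right, left_inl, right_inl, left_inr,
            right_inr, map_mul, map_inv, map_one, one_mul, mul_one, MulAut.mul_apply, rho_ga,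
            rho_gb,
            SAm_apply, SBm_apply, SAm_inv_apply, SBm_inv_apply, MulAut.one_apply, inv_one,
            SA_a, SA_e, SA_A, SA_B, SAi_a, SAi_e, SAi_A, SAi_B, SB_a, SB_e, SB_A, SB_B,
            SBi_a, SBi_e, SBi_A, SBi_B, SAv, SAiv, SBv, SBiv,
            lt_irrefl, if_true, if_false, map_cj, SB_pp, SB_zz, SBi_pp, hr0, hs0, h, h.not_gt, h.ne, h.ne', SA_pp hr0, SAi_pp hr0, SA_zz hr0, SA_pp hs0, SAi_pp hs0, SA_zz hs0]
          (try simp only [cj])
          (try group)
        · simp only [mul_right, inv_right, right_inl, right_inr, one_mul, mul_one, inv_one]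
          try group

end H13SB.W
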