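import Pool.Agent.H13.SB.W.Tau4

set_option linter.unusedSimpArgs false
set_option linter.unusedTactic false

namespace H13SB.W

open SemidirectProduct

variable {b : ℕ}

theorem tau_equiv (γ : SurfaceGroup b) :
    tau0.comp (rho γ).toMonoidHom = (MulAut.conj (inr γ)).toMonoidHom.comp tau0 := by
  let H : Subgroup (SurfaceGroup b) :=
    { carrier := {γ | ∀ w : F b, tau0 (rho γ w) = inr γ * tau0 w * (inr γ)⁻¹}
      mul_mem' := by
        intro x y hx hy w
        rw [map_mul, MulAut.mul_apply, hx, hy, map_mul]
        group
      one_mem' := by intro w; simp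
      inv_mem' := by
        intro x hx w
        have h := hx (rho x⁻¹ w)
        rw [← MulAut.mul_apply, ← map_mul, mul_inv_cancel, map_one, MulAut.one_apply] at h
        rw [h, map_inv (inr : SurfaceGroup b →* PW b) x]
        group }
  have hm := mem_of_gens H (fun x => by
    intro w
    rcases x with ⟨i, t⟩
    cases t
    · have h := tau_equiv_a i
      rw [rho_a]
      exact DFunLike.congr_fun h w
    · have h := tau_equiv_b i
      rw [rho_b]
      exact DFunLike.congr_fun h w) γ
  apply MonoidHom.ext
  intro w
  exact hm w

/-- The endomorphism `τ` of `PW b`. -/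
def tau : PW b →* PW b := SemidirectProduct.lift tau0 inr (fun γ => tau_equiv γ)

@[simp] theorem tau_inl (w : F b) : tau (inl w : PW b) = tau0 w := by simp [tau]
@[simp] theorem tau_inr (γ : SurfaceGroup b) : tau (inr γ : PW b) = inr γ := by simp [tau]

/-- The square of `τ`, on the free group. -/
def del : F b →* F b := FreeGroup.lift fun x => match x with
  | (r, Knd.a) => a r
  | (r, Knd.e) => e r
  | (r, Knd.A) => pp⁻¹ * A r * pp
  | (r, Knd.B) => pp⁻¹ * B r * pp

def deli : F b →* F b := FreeGroup.lift fun x => match x with
  | (r, Knd.a) => a r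
  | (r, Knd.e) => e r
  | (r, Knd.A) => pp * A r * pp⁻¹
  | (r, Knd.B) => pp * B r * pp⁻¹

theorem del_a (r : Fin b) : del (a r) = a r := by simp [del, a]
theorem del_e (r : Fin b) : del (e r) = e r := by simp [del, e]
theorem del_A (r : Fin b) : del (A r) = pp⁻¹ * A r * pp := by simp [del, A]
theorem del_B (r : Fin b) : del (B r) = pp⁻¹ * B r * pp := by simp [del, B]
theorem deli_a (r : Fin b) : deli (a r) = a r := by simp [deli, a]
theorem deli_e (r : Fin b) : deli (e r) = e r := by simp [deli, e]
theorem deli_A (r : Fin b) : deli (A r) = pp * A r * pp⁻¹ := by simp [deli, A]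
theorem deli_B (r : Fin b) : deli (B r) = pp * B r * pp⁻¹ := by simp [deli, B]

theorem del_pp : del (pp : F b) = pp := by
  have h := map_Lp_left (del (b := b)) Kap Kap pp⁻¹ b
    (fun r _ => by rw [Kap, map_cm, del_A, del_B, cj_cm]; simp [cj]) b le_rfl le_rfl
  change del pp = cj pp⁻¹ pp at h
  rw [h, cj]; group

theorem deli_pp : deli (pp : F b) = pp := by
  have h := map_Lp_left (deli (b := b)) Kap Kap pp b
    (fun r _ => by rw [Kap, map_cm, deli_A, deli_B, cj_cm]; simp [cj]) b le_rfl le_rfl
  change deli pp = cj pp pp at h
  rw [h, cj]; group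

theorem del_zz : del (zz : F b) = zz := by
  have h := map_Lp_left (del (b := b)) kap kap 1 b
    (fun r _ => by rw [kap, map_cm, del_a, del_e, cj_cm]; simp [cj]) b le_rfl le_rfl
  change del zz = cj 1 zz at h
  rw [h, cj]; group

theorem del_deli (w : F b) : del (deli w) = w := by
  have h : (del (b := b)).comp deli = MonoidHom.id _ := by
    apply hom_ext' <;> intro r <;> simp only [MonoidHom.comp_apply, deli_a, deli_e, deli_A,
      deli_B, del_a, del_e, del_A, del_B, map_mul, map_inv, del_pp, MonoidHom.id_apply] <;> group
  exact DFunLike.congr_fun h w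

theorem deli_del (w : F b) : deli (del w) = w := by
  have h : (deli (b := b)).comp del = MonoidHom.id _ := by
    apply hom_ext' <;> intro r <;> simp only [MonoidHom.comp_apply, deli_a, deli_e, deli_A,
      deli_B, del_a, del_e, del_A, del_B, map_mul, map_inv, deli_pp, MonoidHom.id_apply] <;> group
  exact DFunLike.congr_fun h w

theorem tau_tau_inl (w : F b) : tau (tau (inl w : PW b)) = inl (del w) := by
  have h : ((tau (b := b)).comp tau).comp inl = inl.comp del := by
    apply hom_ext' <;> intro r
    · simp only [MonoidHom.comp_apply, tau_inl, tau0_a, del_a]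
    · simp only [MonoidHom.comp_apply, tau_inl, tau0_e, del_e]
    · simp only [MonoidHom.comp_apply, tau_inl, tau0_A, del_A, tauv]
      by_cases h0 : r.val = 0
      · simp only [h0, if_true, map_mul, tau_inl, tau_inr, map_inv, tau0_A, tau0_pp, tauv]
        apply SemidirectProduct.ext
        · simp only [mul_left, mul_right, inv_left, inv_right, left_inl, right_inl, left_inr,
            right_inr, map_mul, map_inv, map_one, one_mul, mul_one, MulAut.mul_apply, rho_ga,
            rho_gb,
            SAm_apply, SBm_apply, SAm_inv_apply, SBm_inv_apply, MulAut.one_apply, inv_one,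
            SA_a, SA_e, SA_A, SA_B, SAi_a, SAi_e, SAi_A, SAi_B, SB_a, SB_e, SB_A, SB_B,
            SBi_a, SBi_e, SBi_A, SBi_B, SAv, SAiv, SBv, SBiv, h0,
            lt_irrefl, if_true, if_false, map_cj, SA_pp0 h0, SAi_pp0 h0]
          (try simp only [cj])
          (try group)
        · simp only [mul_right, inv_right, right_inl, right_inr, one_mul, mul_one, inv_one]
          (try group)
      · simp only [h0, if_false, map_mul, tau_inl, tau_inr, map_inv, tau0_A, tau0_a, tauv]
        apply SemidirectProduct.ext
        · simp only [mul_left, mul_right, inv_left, inv_right, left_inl, right_inl, left_inr,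
            right_inr, map_mul, map_inv, map_one, one_mul, mul_one, MulAut.mul_apply, rho_ga,
            rho_gb,
            SAm_apply, SBm_apply, SAm_inv_apply, SBm_inv_apply, MulAut.one_apply, inv_one,
            SA_a, SA_e, SA_A, SA_B, SAi_a, SAi_e, SAi_A, SAi_B, SB_a, SB_e, SB_A, SB_B,
            SBi_a, SBi_e, SBi_A, SBi_B, SAv, SAiv, SBv, SBiv, h0,
            lt_irrefl, if_true, if_false, map_cj, SA_pp h0, SAi_pp h0]
          simp only [cj]
          group
        · simp only [mul_right, inv_right, right_inl, right_inr, one_mul, mul_one, inv_one]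
          group
    · simp only [MonoidHom.comp_apply, tau_inl, tau0_B, del_B]
      simp only [map_mul, tau_inl, tau_inr, map_inv, tau0_B, tau0_e]
      apply SemidirectProduct.ext
      · simp only [mul_left, mul_right, inv_left, inv_right, left_inl, right_inl, left_inr,
          right_inr, map_mul, map_inv, map_one, one_mul, mul_one, MulAut.mul_apply, rho_ga,
          rho_gb,
          SAm_apply, SBm_apply, SAm_inv_apply, SBm_inv_apply, MulAut.one_apply, inv_one,
          SA_a, SA_e, SA_A, SA_B, SAi_a, SAi_e, SAi_A, SAi_B, SB_a, SB_e, SB_A, SB_B,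
          SBi_a, SBi_e, SBi_A, SBi_B, SAv, SAiv, SBv, SBiv,
          lt_irrefl, if_true, if_false, map_cj, SB_pp, SBi_pp]
        simp only [cj]
        group
      · simp only [mul_right, inv_right, right_inl, right_inr, one_mul, mul_one, inv_one]
        group
  exact DFunLike.congr_fun h w

theorem tau_tau (x : PW b) : tau (tau x) = ⟨del x.left, x.right⟩ := by
  have h : x = inl x.left * inr x.right := (inl_left_mul_inr_right x).symm
  conv_lhs => rw [h]
  rw [map_mul, map_mul, tau_tau_inl, tau_inr, tau_inr]
  apply SemidirectProduct.ext <;> simp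

theorem tau_bijective : Function.Bijective (tau (b := b)) := by
  have h1 : Function.Bijective (fun x : PW b => tau (tau x)) := by
    constructor
    · intro x y hxy
      simp only [tau_tau] at hxy
      have hl := congrArg SemidirectProduct.left hxy
      have hr := congrArg SemidirectProduct.right hxy
      simp only at hl hr
      apply SemidirectProduct.ext
      · have := congrArg deli hl
        rwa [deli_del, deli_del] at this
      · exact hr
    · intro y
      refine ⟨⟨deli y.left, y.right⟩, ?_⟩
      simp only [tau_tau, del_deli]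
  exact ⟨fun x y hxy => h1.1 (by simp only [hxy]), fun y => by
    obtain ⟨x, hx⟩ := h1.2 y
    exact ⟨tau x, hx⟩⟩

/-- The automorphism `τ`. -/
noncomputable def tauM : MulAut (PW b) := MulEquiv.ofBijective tau tau_bijective

theorem tauM_apply (x : PW b) : tauM x = tau x := rfl

theorem tau0_bd : tau0 (bd : F b) = inl bd := by
  rw [bd, map_mul, map_inv, tau0_pp, tau0_zz, map_mul, map_inv]

/-- The second fibering on the free group. -/
def hW : F b →* SurfaceGroup b := rightHom.comp tau0

theorem hW_apply (w : F b) : (tauM (inl w : PW b)).right = hW w := by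
  rw [tauM_apply, tau_inl]; rfl

theorem hW_B (r : Fin b) : hW (B r) = gb r := by
  simp [hW, tau0_B]

end H13SB.W
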